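import Mathlib

/-!
Conformal metrics on the plane: lengths of piecewise `C¹` curves, distance and diameter.
The plane is `ℂ` with its Euclidean norm.
-/

set_option autoImplicit false

namespace Pool.Agent.MP_ae50c7_an

/-- `γ` is piecewise `C¹` on `[a, b]`: there is a partition `a = t 0 < t 1 < ... < t n = b` such
that `γ` is `C¹` on each closed piece. -/
def PiecewiseC1On (γ : ℝ → ℂ) (a b : ℝ) : Prop :=
  ∃ (n : ℕ) (t : ℕ → ℝ), t 0 = a ∧ t n = b ∧
    ∀ i < n, t i < t (i + 1) ∧ ContDiffOn ℝ 1 γ (Set.Icc (t i) (t (i + 1)))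

/-- length of the curve `γ : [0, 1] → ℂ` for the metric with line element `ρ |dz|` -/
noncomputable def len (ρ : ℂ → ℝ) (γ : ℝ → ℂ) : ℝ :=
  ∫ t in (0 : ℝ)..1, ρ (γ t) * ‖deriv γ t‖

/-- the distance of the metric `ρ |dz|`: infimum of the lengths of piecewise `C¹` curves -/
noncomputable def cdist (ρ : ℂ → ℝ) (x y : ℂ) : ℝ :=
  sInf {L : ℝ | ∃ γ : ℝ → ℂ, PiecewiseC1On γ 0 1 ∧ γ 0 = x ∧ γ 1 = y ∧ L = len ρ γ}

/-- the diameter of the plane for the metric `ρ |dz|`, in `[0, ∞]` -/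
noncomputable def cdiam (ρ : ℂ → ℝ) : ENNReal := ⨆ x : ℂ, ⨆ y : ℂ, ENNReal.ofReal (cdist ρ x y)

/-- `u` is a `C²` solution of `Δ u + e^{2u} = 0` on the whole plane -/
def IsSolution (u : ℂ → ℝ) : Prop :=
  ContDiff ℝ 2 u ∧ ∀ z : ℂ, Laplacian.laplacian u z + Real.exp (2 * u z) = 0

end Pool.Agent.MP_ae50c7_an
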