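import Pool.Agent.MP_ae50c7_an.Defs

attribute [-instance] IsValuativeTopology.instValuedValueGroupWithZeroOfIsUniformAddGroup
  ProperSMul.toContinuousSMul AddQuantale.instAddLeftMono RightPreLieAlgebra.toModule
  LeftPreLieAlgebra.toModule IsTopologicalTorsor.toContinuousSMul
  IdemSemiring.toCanonicallyOrderedAdd NonarchimedeanRing.toIsTopologicalRing NumberField.to_charZero
  NonarchimedeanAddGroup.toIsTopologicalAddGroup Group.IsPerfect.subsingleton_of_isMulCommutative
  Action.FintypeCat.instMulActionObjFiniteOf LieAdmissibleAlgebra.toSMulCommClass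
  AddQuantale.instAddRightMono Valued.isTopologicalDivisionRing RightPreLieAlgebra.toSMulCommClass
  LeftPreLieAlgebra.toSMulCommClass NonUnitalNonAssocRing.toAddCommGroup RKHS.instFunLike
  CStarAlgebra.instOrderClosedTopology LinearOrderedCommMonoidWithZero.toPosMulStrictMono
  AlgHom.instNonUnitalAlgHomClassOfAlgHomClass Quantale.instMulRightMono Unique.instSubsingleton
  TotallySeparatedSpace.t2Space IdemSemiring.toMulLeftMono LieAdmissibleRing.toNonUnitalNonAssocRing
  continuousSub_of_discreteTopology IsOrderedMonoid.toMulLeftMono instCoeHTCTOfCoeTailOfCoeHTC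
  instCoeTOfCoeDep Topology.IsScott.instClosedIicTopologyOfUnivSet instIsModuleTopology
  littleWedderburn Ring.toAddCommGroup IsValuativeTopology.instIsTopologicalAddGroup

/-!
Proof that the conformal diameters of solutions of the Liouville equation fill `[π, ∞]`.
-/

set_option autoImplicit false

section LipPart
/-!
Pointwise Lipschitz bounds and their calculus.
-/


namespace Pool.Agent.MP_ae50c7_an

open Filter Topology Set

/-- pointwise (upper) Lipschitz constant of `h` at `x` is at most `r` -/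
def LipAt {E F : Type} [NormedAddCommGroup E] [NormedAddCommGroup F] (h : E → F) (r : ℝ) (x : E) :
    Prop :=
  ∀ c, r < c → ∀ᶠ y in 𝓝 x, ‖h y - h x‖ ≤ c * ‖y - x‖

section

variable {E F G : Type} [NormedAddCommGroup E] [NormedAddCommGroup F] [NormedAddCommGroup G]

theorem LipAt.mono {h : E → F} {r r' : ℝ} {x : E} (H : LipAt h r x) (hr : r ≤ r') :
    LipAt h r' x := fun c hc => H c (lt_of_le_of_lt hr hc)

theorem LipAt.of_forall {h : E → F} {r : ℝ} {x : E}
    (H : ∀ᶠ y in 𝓝 x, ‖h y - h x‖ ≤ r * ‖y - x‖) : LipAt h r x := fun _ hc =>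
  H.mono fun _ hy => hy.trans (mul_le_mul_of_nonneg_right hc.le (norm_nonneg _))

theorem LipAt.of_eventually_eq {h : E → F} {r : ℝ} {x : E} (hr : 0 ≤ r)
    (H : ∀ᶠ y in 𝓝 x, h y = h x) : LipAt h r x :=
  LipAt.of_forall (H.mono fun y hy => by rw [hy, sub_self, norm_zero]; positivity)

theorem LipAt.congr {h h' : E → F} {r : ℝ} {x : E} (H : LipAt h r x)
    (he : ∀ᶠ y in 𝓝 x, h' y = h y) : LipAt h' r x := fun c hc => by
  filter_upwards [H c hc, he] with y hy hy'
  rwa [hy', he.self_of_nhds]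

theorem LipAt.continuousAt {h : E → F} {r : ℝ} {x : E} (H : LipAt h r x) : ContinuousAt h x := by
  have h1 := H (r + 1) (by linarith)
  rw [ContinuousAt, tendsto_iff_norm_sub_tendsto_zero]
  refine squeeze_zero' (Eventually.of_forall fun _ => norm_nonneg _) h1 ?_
  have : Tendsto (fun y => (r + 1) * ‖y - x‖) (𝓝 x) (𝓝 ((r + 1) * ‖x - x‖)) :=
    (by fun_prop : Continuous fun y : E => (r + 1) * ‖y - x‖).tendsto x
  simpa using this

theorem exists_mul_le {r s c : ℝ} (_hr : 0 ≤ r) (_hs : 0 ≤ s) (hc : r * s < c) :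
    ∃ c1 c2, r < c1 ∧ s < c2 ∧ c1 * c2 ≤ c := by
  have h1 : Tendsto (fun e : ℝ => (r + e) * (s + e)) (𝓝[>] 0) (𝓝 ((r + 0) * (s + 0))) :=
    ((by fun_prop : Continuous fun e : ℝ => (r + e) * (s + e)).tendsto 0).mono_left
      nhdsWithin_le_nhds
  simp only [add_zero] at h1
  obtain ⟨e, he, he0⟩ := ((h1.eventually (gt_mem_nhds hc)).and self_mem_nhdsWithin).exists
  have he0' : 0 < e := he0
  exact ⟨r + e, s + e, by linarith, by linarith, he.le⟩

theorem LipAt.comp {h : F → G} {g : E → F} {r s : ℝ} {x : E} (H : LipAt h r (g x))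
    (K : LipAt g s x) (hr : 0 ≤ r) (hs : 0 ≤ s) : LipAt (fun y => h (g y)) (r * s) x := by
  intro c hc
  obtain ⟨c1, c2, h1, h2, h3⟩ := exists_mul_le hr hs hc
  filter_upwards [K.continuousAt.eventually (H c1 h1), K c2 h2] with y hy hy'
  calc ‖h (g y) - h (g x)‖ ≤ c1 * ‖g y - g x‖ := hy
    _ ≤ c1 * (c2 * ‖y - x‖) := mul_le_mul_of_nonneg_left hy' (by linarith)
    _ = (c1 * c2) * ‖y - x‖ := by ring
    _ ≤ c * ‖y - x‖ := mul_le_mul_of_nonneg_right h3 (norm_nonneg _)

theorem lipAt_of_hasFDerivAt {𝕜 : Type} [NontriviallyNormedField 𝕜] [NormedSpace 𝕜 E]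
    [NormedSpace 𝕜 F] {h : E → F} {h' : E →L[𝕜] F} {x : E} (H : HasFDerivAt h h' x) :
    LipAt h ‖h'‖ x := by
  intro c hc
  have h1 := H.isLittleO.def (c := c - ‖h'‖) (by linarith)
  filter_upwards [h1] with y hy
  have h2 := h'.le_opNorm (y - x)
  calc ‖h y - h x‖ = ‖(h y - h x - h' (y - x)) + h' (y - x)‖ := by congr 1; abel
    _ ≤ ‖h y - h x - h' (y - x)‖ + ‖h' (y - x)‖ := norm_add_le _ _
    _ ≤ c * ‖y - x‖ := by linarith only [hy, h2]

theorem lipAt_of_hasDerivAt {𝕜 : Type} [NontriviallyNormedField 𝕜] [NormedSpace 𝕜 F]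
    {h : 𝕜 → F} {h' : F} {x : 𝕜} (H : HasDerivAt h h' x) : LipAt h ‖h'‖ x := by
  have := lipAt_of_hasFDerivAt H.hasFDerivAt
  simpa using this

theorem lipAt_norm (x : E) : LipAt (fun y : E => ‖y‖) 1 x :=
  LipAt.of_forall (Eventually.of_forall fun y => by
    simpa using abs_norm_sub_norm_le y x)

theorem LipAt.norm {h : E → F} {r : ℝ} {x : E} (H : LipAt h r x) :
    LipAt (fun y => ‖h y‖) r x := fun c hc =>
  (H c hc).mono fun _ hy => (abs_norm_sub_norm_le _ _).trans hy

theorem LipAt.neg {h : E → F} {r : ℝ} {x : E} (H : LipAt h r x) :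
    LipAt (fun y => -h y) r x := fun c hc =>
  (H c hc).mono fun y hy => by rwa [neg_sub_neg, norm_sub_rev]

theorem LipAt.add_const {h : E → F} {r : ℝ} {x : E} (H : LipAt h r x) (a : F) :
    LipAt (fun y => h y + a) r x := fun c hc =>
  (H c hc).mono fun y hy => by rwa [add_sub_add_right_eq_sub]

theorem LipAt.const_add {h : E → F} {r : ℝ} {x : E} (H : LipAt h r x) (a : F) :
    LipAt (fun y => a + h y) r x := fun c hc =>
  (H c hc).mono fun y hy => by rwa [add_sub_add_left_eq_sub]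

theorem LipAt.sub_const {h : E → F} {r : ℝ} {x : E} (H : LipAt h r x) (a : F) :
    LipAt (fun y => h y - a) r x := by
  simpa only [sub_eq_add_neg] using H.add_const (-a)

theorem LipAt.const_sub {h : E → F} {r : ℝ} {x : E} (H : LipAt h r x) (a : F) :
    LipAt (fun y => a - h y) r x := by
  simpa only [sub_eq_add_neg] using H.neg.const_add a

theorem lipAt_const {r : ℝ} (hr : 0 ≤ r) (a : F) (x : E) : LipAt (fun _ : E => a) r x :=
  LipAt.of_eventually_eq hr (Eventually.of_forall fun _ => rfl)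

theorem LipAt.const_mul {h : E → ℝ} {r : ℝ} {x : E} (H : LipAt h r x) (hr : 0 ≤ r) (m : ℝ) :
    LipAt (fun y => m * h y) (|m| * r) x := by
  have h1 : LipAt (fun t : ℝ => m * t) |m| (h x) :=
    LipAt.of_forall (Eventually.of_forall fun y => by
      rw [← mul_sub, norm_mul, Real.norm_eq_abs])
  exact h1.comp H (abs_nonneg m) hr

theorem LipAt.max {h k : E → ℝ} {r : ℝ} {x : E} (H : LipAt h r x) (K : LipAt k r x) :
    LipAt (fun y => max (h y) (k y)) r x := fun c hc => by
  filter_upwards [H c hc, K c hc] with y hy hy'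
  exact (abs_max_sub_max_le_max _ _ _ _).trans (max_le hy hy')

theorem LipAt.min {h k : E → ℝ} {r : ℝ} {x : E} (H : LipAt h r x) (K : LipAt k r x) :
    LipAt (fun y => min (h y) (k y)) r x := fun c hc => by
  filter_upwards [H c hc, K c hc] with y hy hy'
  exact (abs_min_sub_min_le_max _ _ _ _).trans (max_le hy hy')

/-- gluing along the integer levels of a continuous function -/
theorem lipAt_glue {s : E → ℝ} {q : ℤ → E → ℝ} {δ r : ℝ} {x : E} (hs : ContinuousAt s x)
    (hq : ∀ j, LipAt (q j) r x) (h0 : ∀ j : ℤ, s x = j → q j x = 0 ∧ q (j - 1) x = δ) :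
    LipAt (fun y => δ * (⌊s y⌋ : ℝ) + q ⌊s y⌋ y) r x := by
  intro c hc
  have h1 : ∀ᶠ y in 𝓝 x, s y < (⌊s x⌋ : ℝ) + 1 :=
    hs.eventually (gt_mem_nhds (Int.lt_floor_add_one _))
  rcases (Int.floor_le (s x)).eq_or_lt with he | hlt
  · have h2 : ∀ᶠ y in 𝓝 x, (⌊s x⌋ : ℝ) - 1 < s y :=
      hs.eventually (lt_mem_nhds (by linarith))
    obtain ⟨h3, h4⟩ := h0 _ he.symm
    filter_upwards [h1, h2, hq ⌊s x⌋ c hc, hq (⌊s x⌋ - 1) c hc] with y a1 a2 a3 a4
    by_cases hy : (⌊s x⌋ : ℝ) ≤ s y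
    · have : ⌊s y⌋ = ⌊s x⌋ := Int.floor_eq_iff.mpr ⟨hy, a1⟩
      rw [this, add_sub_add_left_eq_sub]
      exact a3
    · have : ⌊s y⌋ = ⌊s x⌋ - 1 := Int.floor_eq_iff.mpr ⟨by push_cast; linarith only [a2], by
        push_cast; linarith⟩
      rw [this, h3]
      rw [h4] at a4
      convert a4 using 2
      push_cast
      ring
  · have h2 : ∀ᶠ y in 𝓝 x, (⌊s x⌋ : ℝ) < s y := hs.eventually (lt_mem_nhds hlt)
    filter_upwards [h1, h2, hq ⌊s x⌋ c hc] with y a1 a2 a3
    have : ⌊s y⌋ = ⌊s x⌋ := Int.floor_eq_iff.mpr ⟨a2.le, a1⟩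
    rw [this, add_sub_add_left_eq_sub]
    exact a3

end

theorem lipAt_re (x : ℂ) : LipAt Complex.re 1 x :=
  LipAt.of_forall (Eventually.of_forall fun y => by
    simpa using Complex.abs_re_le_norm (y - x))

theorem lipAt_im (x : ℂ) : LipAt Complex.im 1 x :=
  LipAt.of_forall (Eventually.of_forall fun y => by
    simpa using Complex.abs_im_le_norm (y - x))

/-- fencing along a curve with a right derivative -/
theorem fence {h : ℂ → ℝ} {ρ : ℂ → ℝ} {γ γ' : ℝ → ℂ} {B B' : ℝ → ℝ} {a b : ℝ} (hab : a ≤ b)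
    (hρ : ∀ x, 0 ≤ ρ x) (hh : ∀ x, LipAt h (ρ x) x) (hγ : ContinuousOn γ (Icc a b))
    (hγ' : ∀ t ∈ Ico a b, HasDerivWithinAt γ (γ' t) (Ici t) t) (hB : ContinuousOn B (Icc a b))
    (hB' : ∀ t ∈ Ico a b, HasDerivWithinAt B (B' t) (Ici t) t)
    (hle : ∀ t ∈ Ico a b, ρ (γ t) * ‖γ' t‖ ≤ B' t) : h (γ b) - h (γ a) ≤ B b - B a := by
  have hc : Continuous h := continuous_iff_continuousAt.mpr fun x => (hh x).continuousAt
  have key := image_le_of_liminf_slope_right_le_deriv_boundary (f := fun t => h (γ t))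
    (a := a) (b := b) (hc.comp_continuousOn hγ) (B := fun t => B t + (h (γ a) - B a)) (B' := B')
    (by simp) (hB.add continuousOn_const) (fun t ht => (hB' t ht).add_const _) ?_
    (right_mem_Icc.mpr hab)
  · linarith
  intro t ht r hr
  obtain ⟨r', hr1, hr2⟩ := exists_between (lt_of_le_of_lt (hle t ht) hr)
  obtain ⟨c1, c2, h1, h2, h3⟩ := exists_mul_le (hρ _) (norm_nonneg _) hr1
  have e1 : ∀ᶠ z in 𝓝[Ici t] t, ‖h (γ z) - h (γ t)‖ ≤ c1 * ‖γ z - γ t‖ :=
    (hγ' t ht).continuousWithinAt.eventually (hh _ c1 h1)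
  have e2 : ∀ᶠ z in 𝓝[Ici t] t, ‖γ z - γ t‖ ≤ c2 * ‖z - t‖ := by
    have := (hγ' t ht).hasFDerivWithinAt.isLittleO.def (c := c2 - ‖γ' t‖) (by linarith)
    filter_upwards [this] with z hz
    simp only [ContinuousLinearMap.toSpanSingleton_apply] at hz
    calc ‖γ z - γ t‖ = ‖(γ z - γ t - (z - t) • γ' t) + (z - t) • γ' t‖ := by congr 1; abel
      _ ≤ ‖γ z - γ t - (z - t) • γ' t‖ + ‖(z - t) • γ' t‖ := norm_add_le _ _
      _ ≤ c2 * ‖z - t‖ := by rw [norm_smul]; linarith only [hz]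
  refine Eventually.frequently ?_
  filter_upwards [(e1.and e2).filter_mono (nhdsWithin_mono t Ioi_subset_Ici_self),
    self_mem_nhdsWithin] with z hz hzt
  have hzt' : 0 < z - t := sub_pos.mpr hzt
  rw [slope_def_field, div_lt_iff₀ hzt']
  have h4 : ‖z - t‖ = z - t := Real.norm_of_nonneg hzt'.le
  have h5 := le_abs_self (h (γ z) - h (γ t))
  have h6 : c1 * ‖γ z - γ t‖ ≤ c1 * (c2 * (z - t)) :=
    mul_le_mul_of_nonneg_left (h4 ▸ hz.2) (by linarith only [hρ (γ t), h1])
  have h7 := hz.1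
  rw [Real.norm_eq_abs] at h7
  nlinarith only [hr2, h3, hzt', h5, h6, h7]

end Pool.Agent.MP_ae50c7_an

end LipPart

section DistPart
/-!
Basic properties of the conformal distance.
-/


namespace Pool.Agent.MP_ae50c7_an

open Filter Topology Set MeasureTheory

theorem PiecewiseC1On.induction {γ : ℝ → ℂ} {P : ℝ → ℝ → Prop} (hrefl : ∀ a, P a a)
    (hstep : ∀ a b c, P a b → b < c → ContDiffOn ℝ 1 γ (Icc b c) → P a c) {a b : ℝ}
    (h : PiecewiseC1On γ a b) : P a b := by
  obtain ⟨n, t, h0, hn, ht⟩ := h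
  have : ∀ i ≤ n, P a (t i) := by
    intro i
    induction i with
    | zero => intro _; rw [h0]; exact hrefl a
    | succ i ih => intro hi; exact hstep _ _ _ (ih (by omega)) (ht i (by omega)).1 (ht i (by omega)).2
  exact hn ▸ this n le_rfl

theorem pw_refl (γ : ℝ → ℂ) (a : ℝ) : PiecewiseC1On γ a a :=
  ⟨0, fun _ => a, rfl, rfl, fun _ hi => absurd hi (Nat.not_lt_zero _)⟩

theorem PiecewiseC1On.snoc {γ : ℝ → ℂ} {a b c : ℝ} (h : PiecewiseC1On γ a b) (hbc : b < c)
    (hc : ContDiffOn ℝ 1 γ (Icc b c)) : PiecewiseC1On γ a c := by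
  obtain ⟨n, t, h0, hn, ht⟩ := h
  refine ⟨n + 1, fun i => if i ≤ n then t i else c, by simpa using h0, by simp, fun i hi => ?_⟩
  rcases (Nat.lt_succ_iff.mp hi).eq_or_lt with rfl | hlt
  · simp only [le_refl, if_true, Nat.add_one_le_iff, lt_irrefl, if_false, hn]
    exact ⟨hbc, hc⟩
  · simp only [hlt.le, if_true, Nat.add_one_le_iff, hlt]
    exact ht i hlt

theorem PiecewiseC1On.le {γ : ℝ → ℂ} {a b : ℝ} (h : PiecewiseC1On γ a b) : a ≤ b :=
  h.induction (P := fun a b => a ≤ b) (fun _ => le_rfl) fun _ _ _ h1 h2 _ => h1.trans h2.le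

/-- doubling the speed on an initial part -/
theorem PiecewiseC1On.rescale {γ δ : ℝ → ℂ} {a b : ℝ} (h : PiecewiseC1On γ a b)
    (he : ∀ t, t ≤ b / 2 → δ t = γ (2 * t)) : PiecewiseC1On δ (a / 2) (b / 2) := by
  have key : ∀ a c, PiecewiseC1On γ a c → c ≤ b → PiecewiseC1On δ (a / 2) (c / 2) := by
    intro a c hc
    refine hc.induction (P := fun a c => c ≤ b → PiecewiseC1On δ (a / 2) (c / 2))
      (fun a _ => pw_refl _ _) fun a b' c h1 h2 h3 h4 => ?_
    refine (h1 (by linarith)).snoc (by linarith) ?_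
    have h5 : ContDiffOn ℝ 1 (fun t : ℝ => γ (2 * t)) (Icc (b' / 2) (c / 2)) :=
      h3.comp (by fun_prop) fun t ht => ⟨by linarith [ht.1], by linarith [ht.2]⟩
    exact h5.congr fun t ht => he t (by linarith [ht.2])
  exact key a b h le_rfl

variable {ρ : ℂ → ℝ}

theorem piece_ae {γ : ℝ → ℂ} {b c : ℝ} (_hbc : b < c) :
    ∀ t ∈ Ioo b c, derivWithin γ (Icc b c) t = deriv γ t := fun _ ht =>
  derivWithin_of_mem_nhds (Icc_mem_nhds ht.1 ht.2)

theorem piece_cont (hρ : Continuous ρ) {γ : ℝ → ℂ} {b c : ℝ} (hbc : b < c)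
    (h : ContDiffOn ℝ 1 γ (Icc b c)) :
    ContinuousOn (fun t => ρ (γ t) * ‖derivWithin γ (Icc b c) t‖) (Icc b c) :=
  (hρ.comp_continuousOn h.continuousOn).mul
    (h.continuousOn_derivWithin (uniqueDiffOn_Icc hbc) le_rfl).norm

theorem piece_congr {γ : ℝ → ℂ} {b c : ℝ} (hbc : b < c) :
    ∫ t in b..c, ρ (γ t) * ‖deriv γ t‖ = ∫ t in b..c, ρ (γ t) * ‖derivWithin γ (Icc b c) t‖ := by
  rw [intervalIntegral.integral_of_le hbc.le, intervalIntegral.integral_of_le hbc.le,
    integral_Ioc_eq_integral_Ioo, integral_Ioc_eq_integral_Ioo]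
  exact setIntegral_congr_fun measurableSet_Ioo fun t ht => by simp only [piece_ae hbc t ht]

theorem piece_int (hρ : Continuous ρ) {γ : ℝ → ℂ} {b c : ℝ} (hbc : b < c)
    (h : ContDiffOn ℝ 1 γ (Icc b c)) :
    IntervalIntegrable (fun t => ρ (γ t) * ‖deriv γ t‖) volume b c := by
  have h1 := (piece_cont hρ hbc h).intervalIntegrable_of_Icc (μ := volume) hbc.le
  rw [intervalIntegrable_iff_integrableOn_Ioo_of_le hbc.le] at h1 ⊢
  exact h1.congr_fun (fun t ht => by simp only [piece_ae hbc t ht]) measurableSet_Ioo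

theorem PiecewiseC1On.integrable (hρ : Continuous ρ) {γ : ℝ → ℂ} {a b : ℝ}
    (h : PiecewiseC1On γ a b) :
    IntervalIntegrable (fun t => ρ (γ t) * ‖deriv γ t‖) volume a b :=
  h.induction (P := fun a b => IntervalIntegrable (fun t => ρ (γ t) * ‖deriv γ t‖) volume a b)
    (fun _ => IntervalIntegrable.refl) fun _ _ _ h1 h2 h3 => h1.trans (piece_int hρ h2 h3)

theorem lip_piece (hρ : Continuous ρ) (h0 : ∀ x, 0 ≤ ρ x) {h : ℂ → ℝ}
    (hh : ∀ x, LipAt h (ρ x) x) {γ : ℝ → ℂ} {b c : ℝ} (hbc : b < c)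
    (hγ : ContDiffOn ℝ 1 γ (Icc b c)) :
    h (γ c) - h (γ b) ≤ ∫ t in b..c, ρ (γ t) * ‖deriv γ t‖ := by
  rw [piece_congr hbc]
  set φ : ℝ → ℝ := fun t => ρ (γ t) * ‖derivWithin γ (Icc b c) t‖ with hφ
  have hc : ContinuousOn φ (Icc b c) := piece_cont hρ hbc hγ
  have hi : IntervalIntegrable φ volume b c := hc.intervalIntegrable_of_Icc hbc.le
  have := fence (h := h) (ρ := ρ) (γ := γ) (γ' := derivWithin γ (Icc b c))
    (B := fun t => ∫ s in b..t, φ s) (B' := φ) hbc.le h0 hh hγ.continuousOn ?_ ?_ ?_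
    (fun t _ => le_rfl)
  · simpa only [tsub_le_iff_right, ge_iff_le, intervalIntegral.integral_same, sub_zero] using this
  · intro t ht
    exact ((hγ.differentiableOn one_ne_zero t (Ico_subset_Icc_self ht)).hasDerivWithinAt
      ).mono_of_mem_nhdsWithin (Icc_mem_nhdsGE_of_mem ht)
  · have := intervalIntegral.continuousOn_primitive_interval' hi left_mem_uIcc
    rwa [uIcc_of_le hbc.le] at this
  · intro t ht
    have hm : Icc b c ∈ 𝓝[>] t := mem_of_superset (Ioc_mem_nhdsGT ht.2)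
      fun s hs => ⟨ht.1.trans hs.1.le, hs.2⟩
    refine intervalIntegral.integral_hasDerivWithinAt_right
      (hi.mono_set (by rw [uIcc_of_le ht.1, uIcc_of_le hbc.le]; exact Icc_subset_Icc_right ht.2.le))
      (t := Ioi t) ⟨Icc b c, hm, hc.aestronglyMeasurable measurableSet_Icc⟩
      ((hc t (Ico_subset_Icc_self ht)).mono_of_mem_nhdsWithin hm)

theorem lip_len (hρ : Continuous ρ) (h0 : ∀ x, 0 ≤ ρ x) {h : ℂ → ℝ}
    (hh : ∀ x, LipAt h (ρ x) x) {γ : ℝ → ℂ} {a b : ℝ} (hγ : PiecewiseC1On γ a b) :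
    h (γ b) - h (γ a) ≤ ∫ t in a..b, ρ (γ t) * ‖deriv γ t‖ := by
  have := hγ.induction (P := fun a b =>
    IntervalIntegrable (fun t => ρ (γ t) * ‖deriv γ t‖) volume a b ∧
      h (γ b) - h (γ a) ≤ ∫ t in a..b, ρ (γ t) * ‖deriv γ t‖)
    (fun _ => ⟨IntervalIntegrable.refl, by simp⟩) fun a b c h1 h2 h3 => ?_
  · exact this.2
  refine ⟨h1.1.trans (piece_int hρ h2 h3), ?_⟩
  rw [← intervalIntegral.integral_add_adjacent_intervals h1.1 (piece_int hρ h2 h3)]
  linarith [h1.2, lip_piece hρ h0 hh h2 h3]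

theorem len_nonneg (h0 : ∀ x, 0 ≤ ρ x) (γ : ℝ → ℂ) : 0 ≤ len ρ γ :=
  intervalIntegral.integral_nonneg zero_le_one fun _ _ => mul_nonneg (h0 _) (norm_nonneg _)

theorem pw_seg (x y : ℂ) : PiecewiseC1On (fun t : ℝ => x + (t : ℂ) * (y - x)) 0 1 :=
  (pw_refl _ 0).snoc zero_lt_one (ContDiff.contDiffOn (by
    have : ContDiff ℝ 1 (fun t : ℝ => (t : ℂ)) := Complex.ofRealCLM.contDiff
    fun_prop))

theorem set_ne (ρ : ℂ → ℝ) (x y : ℂ) :
    {L : ℝ | ∃ γ : ℝ → ℂ, PiecewiseC1On γ 0 1 ∧ γ 0 = x ∧ γ 1 = y ∧ L = len ρ γ}.Nonempty :=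
  ⟨_, _, pw_seg x y, by simp, by simp, rfl⟩

theorem cdist_le_len (h0 : ∀ x, 0 ≤ ρ x) {γ : ℝ → ℂ} (hγ : PiecewiseC1On γ 0 1) :
    cdist ρ (γ 0) (γ 1) ≤ len ρ γ :=
  csInf_le ⟨0, by rintro L ⟨γ, -, -, -, rfl⟩; exact len_nonneg h0 γ⟩ ⟨γ, hγ, rfl, rfl, rfl⟩

theorem cdist_nonneg (h0 : ∀ x, 0 ≤ ρ x) (x y : ℂ) : 0 ≤ cdist ρ x y :=
  le_csInf (set_ne ρ x y) (by rintro L ⟨γ, -, -, -, rfl⟩; exact len_nonneg h0 γ)

/-- the Lipschitz principle -/
theorem lip_le (hρ : Continuous ρ) (h0 : ∀ x, 0 ≤ ρ x) {h : ℂ → ℝ}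
    (hh : ∀ x, LipAt h (ρ x) x) (x y : ℂ) : h y - h x ≤ cdist ρ x y :=
  le_csInf (set_ne ρ x y) (by rintro L ⟨γ, hγ, rfl, rfl, rfl⟩; exact lip_len hρ h0 hh hγ)

theorem cdist_self (h0 : ∀ x, 0 ≤ ρ x) (x : ℂ) : cdist ρ x x = 0 := by
  refine le_antisymm ?_ (cdist_nonneg h0 x x)
  have := cdist_le_len h0 (γ := fun _ => x) ((pw_refl _ 0).snoc zero_lt_one contDiffOn_const)
  simpa only [ge_iff_le, len, deriv_const', norm_zero, mul_zero, intervalIntegral.integral_zero] using this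

/-- appending a segment -/
theorem cdist_append (hρ : Continuous ρ) (h0 : ∀ x, 0 ≤ ρ x) (x y y' : ℂ) {M : ℝ}
    (hM : ∀ s : ℝ, 0 ≤ s → s ≤ 1 → ρ (y + (s : ℂ) * (y' - y)) ≤ M) :
    cdist ρ x y' ≤ cdist ρ x y + M * ‖y' - y‖ := by
  rw [← sub_le_iff_le_add]
  refine le_csInf (set_ne ρ x y) ?_
  rintro L ⟨γ, hγ, rfl, rfl, rfl⟩
  rw [sub_le_iff_le_add]
  set σ : ℝ → ℂ := fun t => γ 1 + ((2 * t - 1 : ℝ) : ℂ) * (y' - γ 1) with hσ
  set δ : ℝ → ℂ := fun t => if t ≤ 1 / 2 then γ (2 * t) else σ t with hδ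
  have hσd : ∀ t, HasDerivAt σ (2 * (y' - γ 1)) t := fun t => by
    have h1 : HasDerivAt (fun t : ℝ => 2 * t - 1) 2 t := by
      simpa using ((hasDerivAt_id t).const_mul 2).sub_const 1
    have h2 := (h1.ofReal_comp.mul_const (y' - γ 1)).const_add (γ 1)
    rw [Complex.ofReal_ofNat] at h2
    exact h2
  have hσc : ContDiff ℝ 1 σ := by
    have : ContDiff ℝ 1 (fun t : ℝ => ((2 * t - 1 : ℝ) : ℂ)) :=
      Complex.ofRealCLM.contDiff.comp
        (show ContDiff ℝ 1 (fun t : ℝ => 2 * t - 1) by fun_prop)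
    exact contDiff_const.add (this.mul contDiff_const)
  have hδσ : ∀ t, 1 / 2 ≤ t → δ t = σ t := fun t ht => by
    rcases ht.eq_or_lt with rfl | hlt
    · simp [hδ, hσ]
    · simp only [hδ, if_neg (not_le.mpr hlt)]
  have p1 : PiecewiseC1On δ 0 (1 / 2) := by
    simpa using hγ.rescale (δ := δ) fun t ht => by simp only [hδ, if_pos ht]
  have c2 : ContDiffOn ℝ 1 δ (Icc (1 / 2) 1) := hσc.contDiffOn.congr fun t ht => hδσ t ht.1
  have p2 : PiecewiseC1On δ 0 1 := p1.snoc (by norm_num) c2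
  have e0 : δ 0 = γ 0 := by simp only [hδ, one_div, inv_nonneg, Nat.ofNat_nonneg, ↓ reduceIte, mul_zero]
  have e1 : δ 1 = y' := by rw [hδσ 1 (by norm_num)]; norm_num [hσ]
  have k := cdist_le_len h0 p2
  rw [e0, e1] at k
  refine k.trans ?_
  unfold len
  rw [← intervalIntegral.integral_add_adjacent_intervals (p1.integrable hρ)
    (piece_int hρ (by norm_num) c2)]
  refine add_le_add (le_of_eq ?_) ?_
  · have h1 : ∫ t in (0 : ℝ)..(1 / 2), ρ (δ t) * ‖deriv δ t‖ =
        ∫ t in (0 : ℝ)..(1 / 2), 2 * (ρ (γ (2 * t)) * ‖deriv γ (2 * t)‖) := by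
      rw [intervalIntegral.integral_of_le (by norm_num), intervalIntegral.integral_of_le (by norm_num),
        integral_Ioc_eq_integral_Ioo, integral_Ioc_eq_integral_Ioo]
      refine setIntegral_congr_fun measurableSet_Ioo fun t ht => ?_
      have h2 : δ =ᶠ[𝓝 t] fun s => γ (2 * s) := by
        filter_upwards [Iio_mem_nhds ht.2] with s hs
        simp only [hδ, if_pos (le_of_lt (mem_Iio.mp hs))]
      rw [h2.deriv_eq, h2.self_of_nhds, deriv_comp_mul_left, norm_smul]
      norm_num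
      ring
    rw [h1, intervalIntegral.integral_const_mul,
      intervalIntegral.integral_comp_mul_left (fun t => ρ (γ t) * ‖deriv γ t‖) (by norm_num)]
    norm_num only [smul_eq_mul]
    ring
  · have h1 : ∫ t in (1 / 2 : ℝ)..1, ρ (δ t) * ‖deriv δ t‖ ≤
        ∫ _t in (1 / 2 : ℝ)..1, M * (2 * ‖y' - γ 1‖) := by
      refine intervalIntegral.integral_mono_on_of_le_Ioo (by norm_num)
        (piece_int hρ (by norm_num) c2) intervalIntegrable_const fun t ht => ?_
      have h2 : δ =ᶠ[𝓝 t] σ := by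
        filter_upwards [Ioi_mem_nhds ht.1] with s hs
        exact hδσ s (le_of_lt hs)
      rw [h2.deriv_eq, h2.self_of_nhds, (hσd t).deriv, norm_mul]
      have h3 := hM (2 * t - 1) (by linarith only [ht.1]) (by linarith only [ht.2])
      simp only [Complex.norm_ofNat]
      exact mul_le_mul_of_nonneg_right h3 (by positivity)
    refine h1.trans (le_of_eq ?_)
    simp only [intervalIntegral.integral_const, smul_eq_mul]
    ring

theorem lipAt_cdist (hρ : Continuous ρ) (h0 : ∀ x, 0 ≤ ρ x) (x y : ℂ) :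
    LipAt (cdist ρ x) (ρ y) y := by
  intro c hc
  obtain ⟨r, hr, hb⟩ := Metric.eventually_nhds_iff_ball.mp
    (hρ.continuousAt.eventually (gt_mem_nhds hc))
  filter_upwards [Metric.ball_mem_nhds y hr] with y' hy'
  have hn : ‖y' - y‖ < r := by simpa [dist_eq_norm] using hy'
  have h1 := cdist_append hρ h0 x y y' (M := c) fun s s0 s1 => (hb _ (by
    simp only [Metric.mem_ball, dist_eq_norm, add_sub_cancel_left, norm_mul, Complex.norm_real,
      Real.norm_of_nonneg s0]
    nlinarith only [norm_nonneg (y' - y), hn, s1])).le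
  have h2 := cdist_append hρ h0 x y' y (M := c) fun s s0 s1 => (hb _ (by
    have : y' + (s : ℂ) * (y - y') - y = ((1 - s : ℝ) : ℂ) * (y' - y) := by push_cast; ring
    simp only [Metric.mem_ball, dist_eq_norm, this, norm_mul, Complex.norm_real,
      Real.norm_of_nonneg (sub_nonneg.mpr s1)]
    nlinarith only [norm_nonneg (y' - y), hn, s0])).le
  rw [norm_sub_rev y y'] at h2
  rw [Real.norm_eq_abs, abs_le]
  constructor <;> linarith

theorem cdist_triangle (hρ : Continuous ρ) (h0 : ∀ x, 0 ≤ ρ x) (x y z : ℂ) :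
    cdist ρ x z ≤ cdist ρ x y + cdist ρ y z := by
  linarith [lip_le hρ h0 (lipAt_cdist hρ h0 x) y z]

theorem cdist_comm (hρ : Continuous ρ) (h0 : ∀ x, 0 ≤ ρ x) (x y : ℂ) :
    cdist ρ x y = cdist ρ y x := by
  have key : ∀ x y, cdist ρ x y ≤ cdist ρ y x := fun x y => by
    have := lip_le hρ h0 (fun z => (lipAt_cdist hρ h0 x z).neg) y x
    simp only [cdist_self h0] at this
    linarith
  exact le_antisymm (key x y) (key y x)

theorem cdist_le_seg (hρ : Continuous ρ) (h0 : ∀ x, 0 ≤ ρ x) (y y' : ℂ) {M : ℝ}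
    (hM : ∀ s : ℝ, 0 ≤ s → s ≤ 1 → ρ (y + (s : ℂ) * (y' - y)) ≤ M) :
    cdist ρ y y' ≤ M * ‖y' - y‖ := by
  simpa [cdist_self h0] using cdist_append hρ h0 y y y' hM

theorem continuous_cdist (hρ : Continuous ρ) (h0 : ∀ x, 0 ≤ ρ x) (x : ℂ) :
    Continuous (cdist ρ x) :=
  continuous_iff_continuousAt.mpr fun y => (lipAt_cdist hρ h0 x y).continuousAt

/-- a map that does not increase the line element does not increase distances -/
theorem cdist_comp_le {ρ₁ ρ₂ : ℂ → ℝ} (h1 : Continuous ρ₁) (h10 : ∀ x, 0 ≤ ρ₁ x)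
    (h2 : Continuous ρ₂) (h20 : ∀ x, 0 ≤ ρ₂ x) {g g' : ℂ → ℂ} (hg : ∀ x, HasDerivAt g (g' x) x)
    (hle : ∀ x, ρ₁ (g x) * ‖g' x‖ ≤ ρ₂ x) (x y : ℂ) : cdist ρ₁ (g x) (g y) ≤ cdist ρ₂ x y := by
  have := lip_le h2 h20 (h := fun y => cdist ρ₁ (g x) (g y)) (fun z =>
    ((lipAt_cdist h1 h10 (g x) (g z)).comp (lipAt_of_hasDerivAt (hg z)) (h10 _)
      (norm_nonneg _)).mono (hle z)) x y
  simpa [cdist_self h10] using this

/-- comparison of two line elements -/
theorem cdist_le_mul {ρ₁ ρ₂ : ℂ → ℝ} (h1 : Continuous ρ₁) (h10 : ∀ x, 0 ≤ ρ₁ x)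
    (h2 : Continuous ρ₂) (h20 : ∀ x, 0 ≤ ρ₂ x) {κ : ℝ} (hκ : 0 < κ)
    (hle : ∀ x, ρ₁ x ≤ κ * ρ₂ x) (x y : ℂ) : cdist ρ₁ x y ≤ κ * cdist ρ₂ x y := by
  have := lip_le h2 h20 (h := fun y => κ⁻¹ * cdist ρ₁ x y) (fun z =>
    ((lipAt_cdist h1 h10 x z).const_mul (h10 _) κ⁻¹).mono (by
      rw [abs_of_pos (inv_pos.mpr hκ), inv_mul_le_iff₀ hκ]; exact hle z)) x y
  simp only [cdist_self h10, mul_zero, sub_zero] at this
  rwa [inv_mul_le_iff₀ hκ] at this

/-- the clamping lemma: a lower bound for the distance between far sheets -/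
theorem clamp_le (hρ : Continuous ρ) (h0 : ∀ x, 0 ≤ ρ x) {D A : ℂ → ℝ} (hD0 : ∀ x, 0 ≤ D x)
    (hD : ∀ x, LipAt D (ρ x) x) (hA : ∀ x, (∀ᶠ y in 𝓝 x, D y = 0) ∨ LipAt A (ρ x) x)
    {z z' : ℂ} (hz : D z + D z' ≤ A z' - A z) : D z + D z' ≤ cdist ρ z z' := by
  have key := lip_le hρ h0 (h := fun y => max (-D y) (min (D y) (A y - (A z + D z)))) (fun x => ?_)
    z z'
  · have e1 : max (-D z) (min (D z) (A z - (A z + D z))) = -D z := by
      have := hD0 z
      rw [max_eq_left]
      exact (min_le_right _ _).trans (by linarith)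
    have e2 : max (-D z') (min (D z') (A z' - (A z + D z))) = D z' := by
      have := hD0 z'
      rw [min_eq_left (by linarith), max_eq_right (by linarith)]
    simp only [e1, e2] at key
    linarith
  rcases hA x with h | h
  · refine LipAt.of_eventually_eq (h0 x) ?_
    have e : ∀ y, D y = 0 → max (-D y) (min (D y) (A y - (A z + D z))) = 0 := fun y hy => by
      rw [hy, neg_zero]
      exact max_eq_left (min_le_left _ _)
    filter_upwards [h] with y hy
    rw [e y hy, e x h.self_of_nhds]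
  · exact (hD x).neg.max ((hD x).min (h.sub_const _))

end Pool.Agent.MP_ae50c7_an

end DistPart

section DoublePart
/-!
The universal cover of the plane punctured at `p`: the doubling lemma.
-/


namespace Pool.Agent.MP_ae50c7_an

open Filter Topology Set Complex

/-- pull back of the line element under `z ↦ p + exp z` -/
noncomputable def tl (ρ : ℂ → ℝ) (p : ℂ) (z : ℂ) : ℝ := ρ (p + exp z) * ‖exp z‖

/-- the density is bounded below on every vertical strip -/
def Strip (ρ : ℂ → ℝ) : Prop := ∀ a b : ℝ, ∃ m > 0, ∀ z : ℂ, a ≤ z.re → z.re ≤ b → m ≤ ρ z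

variable {ρ : ℂ → ℝ}

theorem tl_cont (hρ : Continuous ρ) (p : ℂ) : Continuous (tl ρ p) := by
  unfold tl
  fun_prop

theorem tl_nonneg (h0 : ∀ x, 0 ≤ ρ x) (p z : ℂ) : 0 ≤ tl ρ p z :=
  mul_nonneg (h0 _) (norm_nonneg _)

theorem strip_tl (hρ : Continuous ρ) (hpos : ∀ x, 0 < ρ x) (p : ℂ) : Strip (tl ρ p) := by
  intro a b
  obtain ⟨w, -, hw⟩ := (isCompact_closedBall p (Real.exp b)).exists_isMinOn
    ⟨p, Metric.mem_closedBall_self (Real.exp_pos b).le⟩ hρ.continuousOn
  refine ⟨ρ w * Real.exp a, mul_pos (hpos w) (Real.exp_pos a), fun z ha hb => ?_⟩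
  refine mul_le_mul (hw ?_) ?_ (Real.exp_pos a).le (hpos _).le
  · simpa only [Metric.mem_closedBall, dist_eq_norm, add_sub_cancel_left, norm_exp, Real.exp_le_exp] using hb
  · simpa [norm_exp] using ha

theorem hasDerivAt_pexp (p z : ℂ) : HasDerivAt (fun z => p + exp z) (exp z) z :=
  (hasDerivAt_exp z).const_add p

theorem LipAt.tl {h : ℂ → ℝ} {p z : ℂ} (h0 : ∀ x, 0 ≤ ρ x)
    (H : LipAt h (ρ (p + exp z)) (p + exp z)) : LipAt (fun y => h (p + exp y)) (tl ρ p z) z :=
  LipAt.comp (g := fun y => p + exp y) H (lipAt_of_hasDerivAt (hasDerivAt_pexp p z)) (h0 _)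
    (norm_nonneg _)

theorem tl_shift (hρ : Continuous ρ) (h0 : ∀ x, 0 ≤ ρ x) (p : ℂ) {τ : ℂ} (hτ : exp τ = 1)
    (z z' : ℂ) : cdist (tl ρ p) (z + τ) (z' + τ) ≤ cdist (tl ρ p) z z' :=
  cdist_comp_le (tl_cont hρ p) (tl_nonneg h0 p) (tl_cont hρ p) (tl_nonneg h0 p)
    (g := fun z => z + τ) (g' := fun _ => 1) (fun x => (hasDerivAt_id x).add_const τ)
    (fun x => by simp [tl, exp_add, hτ]) z z'

theorem exists_bound (hρ : Continuous ρ) (h0 : ∀ x, 0 ≤ ρ x) (p : ℂ) :
    ∃ M > 0, ∀ w, ‖w‖ ≤ 1 → ρ (p + w) ≤ M := by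
  obtain ⟨w, -, hw⟩ := (isCompact_closedBall p 1).exists_isMaxOn
    ⟨p, Metric.mem_closedBall_self zero_le_one⟩ hρ.continuousOn
  refine ⟨ρ w + 1, by linarith [h0 w], fun v hv => ?_⟩
  have : ρ (p + v) ≤ ρ w := hw (by simpa only [Metric.mem_closedBall, dist_eq_norm, add_sub_cancel_left] using hv)
  linarith

theorem left_le (hρ : Continuous ρ) (h0 : ∀ x, 0 ≤ ρ x) {p : ℂ} {M : ℝ} (hM0 : 0 < M)
    (hM : ∀ w, ‖w‖ ≤ 1 → ρ (p + w) ≤ M) {ζ : ℂ} (hζ : ‖exp ζ‖ ≤ 1) {s : ℝ} (hs : 0 ≤ s) :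
    cdist (tl ρ p) ζ (ζ - s) ≤ M * ‖exp ζ‖ := by
  have hd : ∀ t : ℝ, HasDerivAt (fun t : ℝ => -(M * Real.exp (ζ.re - t)))
      (M * Real.exp (ζ.re - t)) t := fun t => by
    have := (((hasDerivAt_id t).const_sub ζ.re).exp.const_mul M).fun_neg
    simpa using this
  have hg : ∀ t : ℝ, HasDerivAt (fun t : ℝ => ζ - (t : ℂ)) (-1) t := fun t => by
    have := ((hasDerivAt_id t).ofReal_comp).const_sub ζ
    simpa using this
  have := fence (h := cdist (tl ρ p) ζ) (ρ := tl ρ p) (γ := fun t : ℝ => ζ - (t : ℂ))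
    (γ' := fun _ => -1) (B := fun t => -(M * Real.exp (ζ.re - t)))
    (B' := fun t => M * Real.exp (ζ.re - t)) hs (tl_nonneg h0 p)
    (lipAt_cdist (tl_cont hρ p) (tl_nonneg h0 p) ζ) (by fun_prop)
    (fun t _ => (hg t).hasDerivWithinAt) (by fun_prop) (fun t _ => (hd t).hasDerivWithinAt) ?_
  · simp only [ofReal_zero, sub_zero, cdist_self (tl_nonneg h0 p)] at this
    have h1 : 0 < M * Real.exp (ζ.re - s) := by positivity
    rw [norm_exp]
    linarith
  · intro t ht
    have h1 : ‖exp (ζ - t)‖ = Real.exp (ζ.re - t) := by simp [norm_exp]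
    have h2 : Real.exp (ζ.re - t) ≤ 1 := by
      refine le_trans (Real.exp_le_exp.mpr (by linarith [ht.1])) (?_ : Real.exp ζ.re ≤ 1)
      rwa [norm_exp] at hζ
    simp only [tl, norm_neg, norm_one, mul_one, h1]
    exact mul_le_mul_of_nonneg_right (hM _ (h1 ▸ h2)) (Real.exp_pos _).le

theorem near_le (hρ : Continuous ρ) (h0 : ∀ x, 0 ≤ ρ x) {p : ℂ} {M : ℝ} (hM0 : 0 < M)
    (hM : ∀ w, ‖w‖ ≤ 1 → ρ (p + w) ≤ M) {ε : ℝ} (hε : ε ≤ 1) {ζ ζ' : ℂ} (hζ : ‖exp ζ‖ ≤ ε)
    (hζ' : ‖exp ζ'‖ ≤ ε) : cdist (tl ρ p) ζ ζ' ≤ 2 * M * ε := by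
  have hc := tl_cont hρ p
  have hn := tl_nonneg h0 p
  have hlim : Tendsto (fun T : ℝ => 2 * M * ε + M * Real.exp (-T) * |ζ'.im - ζ.im|) atTop
      (𝓝 (2 * M * ε + M * 0 * |ζ'.im - ζ.im|)) :=
    ((Real.tendsto_exp_neg_atTop_nhds_zero.const_mul M).mul_const _).const_add _
  simp only [mul_zero, zero_mul, add_zero] at hlim
  refine ge_of_tendsto hlim ?_
  filter_upwards [eventually_ge_atTop (-ζ.re), eventually_ge_atTop (-ζ'.re),
    eventually_ge_atTop 0] with T h1 h2 h3
  have a1 := left_le hρ h0 hM0 hM (hζ.trans hε) (s := ζ.re + T) (by linarith)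
  have a2 := left_le hρ h0 hM0 hM (hζ'.trans hε) (s := ζ'.re + T) (by linarith)
  rw [cdist_comm hc hn] at a2
  have e : ζ' - ((ζ'.re + T : ℝ) : ℂ) - (ζ - ((ζ.re + T : ℝ) : ℂ)) =
      ((ζ'.im - ζ.im : ℝ) : ℂ) * I := by
    apply Complex.ext <;> simp
  have a3 := cdist_le_seg hc hn (ζ - ((ζ.re + T : ℝ) : ℂ)) (ζ' - ((ζ'.re + T : ℝ) : ℂ))
    (M := M * Real.exp (-T)) fun s _ _ => by
      have h4 : ‖exp (ζ - ((ζ.re + T : ℝ) : ℂ) + (s : ℂ) * (ζ' - ((ζ'.re + T : ℝ) : ℂ) -
          (ζ - ((ζ.re + T : ℝ) : ℂ))))‖ = Real.exp (-T) := by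
        rw [e, norm_exp]
        simp
      simp only [tl, h4]
      refine mul_le_mul_of_nonneg_right (hM _ ?_) (Real.exp_pos _).le
      rw [h4]
      exact Real.exp_le_one_iff.mpr (by linarith only [h3])
  rw [e, norm_mul, norm_I, mul_one, norm_real, Real.norm_eq_abs] at a3
  have t1 := cdist_triangle hc hn ζ (ζ - ((ζ.re + T : ℝ) : ℂ)) ζ'
  have t2 := cdist_triangle hc hn (ζ - ((ζ.re + T : ℝ) : ℂ)) (ζ' - ((ζ'.re + T : ℝ) : ℂ)) ζ'
  linarith only [mul_le_mul_of_nonneg_left hζ hM0.le, mul_le_mul_of_nonneg_left hζ' hM0.le, a1, a2, a3, t1, t2]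

/-- every point of the cover can be joined to the region near the puncture -/
theorem exists_near (hρ : Continuous ρ) (h0 : ∀ x, 0 ≤ ρ x) (p : ℂ) {ε : ℝ} (hε : 0 < ε) (z : ℂ)
    {η : ℝ} (hη : 0 < η) :
    ∃ ζ, ‖exp ζ‖ ≤ ε ∧ cdist (tl ρ p) z ζ < cdist ρ p (p + exp z) + η := by
  classical
  have hc := tl_cont hρ p
  have hn := tl_nonneg h0 p
  set S : Set ℂ := {ζ | ‖exp ζ‖ ≤ ε} with hS
  have hSne : S.Nonempty := ⟨(Real.log ε : ℂ), by simp [hS, norm_exp, Real.exp_log hε]⟩
  set β : ℂ → ℝ := fun z => sInf (cdist (tl ρ p) z '' S) with hβ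
  have hbd : ∀ z, BddBelow (cdist (tl ρ p) z '' S) := fun z =>
    ⟨0, by rintro _ ⟨ζ, -, rfl⟩; exact cdist_nonneg hn _ _⟩
  have b0 : ∀ z, 0 ≤ β z := fun z =>
    le_csInf (hSne.image _) (by rintro _ ⟨ζ, -, rfl⟩; exact cdist_nonneg hn _ _)
  have b1 : ∀ z, ∀ ζ ∈ S, β z ≤ cdist (tl ρ p) z ζ := fun z ζ hζ => csInf_le (hbd z) ⟨ζ, hζ, rfl⟩
  have b2 : ∀ z y, β z ≤ cdist (tl ρ p) z y + β y := fun z y => by
    rw [← sub_le_iff_le_add']
    refine le_csInf (hSne.image _) ?_
    rintro _ ⟨ζ, hζ, rfl⟩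
    linarith [b1 z ζ hζ, cdist_triangle hc hn z y ζ]
  have b3 : ∀ z, LipAt β (tl ρ p z) z := fun z c hcz =>
    (lipAt_cdist hc hn z z c hcz).mono fun y hy => by
      rw [cdist_self hn, sub_zero, Real.norm_of_nonneg (cdist_nonneg hn _ _)] at hy
      have h1 := b2 z y
      have h2 := b2 y z
      rw [cdist_comm hc hn] at h2
      rw [Real.norm_eq_abs, abs_le]
      constructor <;> linarith only [hy, h1, h2]
  have b4 : ∀ z y, exp z = exp y → β y ≤ β z := fun z y he => by
    have hτ : exp (y - z) = 1 := by rw [exp_sub, he, div_self (exp_ne_zero y)]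
    refine le_csInf (hSne.image _) ?_
    rintro _ ⟨ζ, hζ, rfl⟩
    have h1 := tl_shift hρ h0 p hτ z ζ
    rw [add_sub_cancel] at h1
    exact (b1 y _ (by simpa only [hS, mem_ofPred_eq, exp_add, hτ, mul_one] using hζ)).trans h1
  have b5 : ∀ z y, exp z = exp y → β y = β z := fun z y he =>
    le_antisymm (b4 z y he) (b4 y z he.symm)
  set b : ℂ → ℝ := fun w => if w = p then 0 else β (log (w - p)) with hb
  have hbl : ∀ w, LipAt b (ρ w) w := fun w => by
    by_cases hw : w = p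
    · subst hw
      refine LipAt.of_eventually_eq (h0 _) ?_
      filter_upwards [Metric.ball_mem_nhds w hε] with y hy
      by_cases hyw : y = w
      · rw [hyw]
      · simp only [hb, if_neg hyw, if_true]
        refine le_antisymm ?_ (b0 _)
        have := b1 (log (y - w)) (log (y - w)) (by
          simp only [hS, mem_ofPred_eq, exp_log (sub_ne_zero.mpr hyw)]
          exact le_of_lt (by simpa [dist_eq_norm] using hy))
        rwa [cdist_self hn] at this
    · have hw' : w - p ≠ 0 := sub_ne_zero.mpr hw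
      have h1 : HasDerivAt (fun y => (y - p) / (w - p)) (1 / (w - p)) w :=
        ((hasDerivAt_id w).sub_const p).div_const _
      have h2 : HasDerivAt (fun y => log (w - p) + log ((y - p) / (w - p))) (1 / (w - p)) w := by
        have := (h1.clog (by simp [div_self hw'])).const_add (log (w - p))
        simpa [div_self hw'] using this
      have h3 := LipAt.comp (g := fun y => log (w - p) + log ((y - p) / (w - p))) (b3 _)
        (lipAt_of_hasDerivAt h2) (hn _) (norm_nonneg _)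
      have h4 : tl ρ p (log (w - p) + log ((w - p) / (w - p))) * ‖1 / (w - p)‖ = ρ w := by
        have : ‖w - p‖ ≠ 0 := norm_ne_zero_iff.mpr hw'
        simp only [tl, div_self hw', log_one, add_zero, exp_log hw', add_sub_cancel, norm_div,
          norm_one]
        field_simp
      rw [h4] at h3
      refine h3.congr ?_
      filter_upwards [isOpen_ne.mem_nhds hw] with y hy
      have hy' : y - p ≠ 0 := sub_ne_zero.mpr hy
      simp only [hb, if_neg hy]
      refine b5 _ _ ?_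
      rw [exp_add, exp_log hw', exp_log (div_ne_zero hy' hw'), exp_log hy']
      field_simp
  have key := lip_le hρ h0 hbl p (p + exp z)
  have hne : p + exp z ≠ p := by simp
  simp only [hb, if_neg hne, if_true, sub_zero, add_sub_cancel_left] at key
  rw [b5 z _ (by rw [exp_log (exp_ne_zero z)])] at key
  obtain ⟨_, ⟨ζ, hζ, rfl⟩, hlt⟩ := exists_lt_of_csInf_lt (hSne.image (cdist (tl ρ p) z))
    (show β z < cdist ρ p (p + exp z) + η by linarith)
  exact ⟨ζ, hζ, hlt⟩

/-- upper bound: go through the puncture -/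
theorem tl_upper (hρ : Continuous ρ) (h0 : ∀ x, 0 ≤ ρ x) (p z z' : ℂ) :
    cdist (tl ρ p) z z' ≤ cdist ρ p (p + exp z) + cdist ρ p (p + exp z') := by
  have hc := tl_cont hρ p
  have hn := tl_nonneg h0 p
  obtain ⟨M, hM0, hM⟩ := exists_bound hρ h0 p
  refine le_of_forall_pos_le_add fun η hη => ?_
  have hε : 0 < min 1 (η / (4 * M)) := lt_min one_pos (by positivity)
  obtain ⟨ζ, h1, h2⟩ := exists_near hρ h0 p hε z (η := η / 4) (by positivity)
  obtain ⟨ζ', h1', h2'⟩ := exists_near hρ h0 p hε z' (η := η / 4) (by positivity)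
  have h3 := near_le hρ h0 hM0 hM (min_le_left _ _) h1 h1'
  have h4 : 2 * M * min 1 (η / (4 * M)) ≤ η / 2 := by
    calc 2 * M * min 1 (η / (4 * M)) ≤ 2 * M * (η / (4 * M)) :=
          mul_le_mul_of_nonneg_left (min_le_right _ _) (by positivity)
      _ = η / 2 := by field_simp; ring
  rw [cdist_comm hc hn] at h2'
  linarith [cdist_triangle hc hn z ζ z', cdist_triangle hc hn ζ ζ' z']

/-- the winding function -/
theorem exists_winding (h0 : ∀ x, 0 ≤ ρ x) (hS : Strip ρ) (p : ℂ) {ε : ℝ} (hε : 0 < ε) :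
    ∃ (A : ℂ → ℝ) (δ : ℝ), 0 < δ ∧ (∀ z, ε ≤ ‖exp z‖ → LipAt A (tl ρ p z) z) ∧
      ∀ z, δ * (z.im / Real.pi - 1) ≤ A z ∧ A z ≤ δ * (z.im / Real.pi + 1) := by
  obtain ⟨m, hm, hmρ⟩ := hS (p.re - ε) (p.re + ε)
  set σ : ℂ → ℝ := fun w => m * max (-ε) (min ε (w.re - p.re)) with hσ
  have hσl : ∀ w, LipAt σ (ρ w) w := fun w => by
    by_cases h1 : w.re < p.re - ε
    · refine LipAt.of_eventually_eq (h0 w) ?_
      have e : ∀ y : ℂ, y.re < p.re - ε → σ y = m * (-ε) := fun y hy => by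
        simp only [hσ]
        rw [max_eq_left ((min_le_right _ _).trans (by linarith))]
      filter_upwards [(isOpen_lt continuous_re continuous_const).mem_nhds h1] with y hy
      rw [e y hy, e w h1]
    by_cases h2 : p.re + ε < w.re
    · refine LipAt.of_eventually_eq (h0 w) ?_
      have e : ∀ y : ℂ, p.re + ε < y.re → σ y = m * ε := fun y hy => by
        simp only [hσ]
        rw [min_eq_left (by linarith), max_eq_right (by linarith)]
      filter_upwards [(isOpen_lt continuous_const continuous_re).mem_nhds h2] with y hy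
      rw [e y hy, e w h2]
    have := (((lipAt_const zero_le_one (-ε) w).max ((lipAt_const zero_le_one ε w).min
      ((lipAt_re w).sub_const p.re))).const_mul zero_le_one m)
    rw [abs_of_pos hm, mul_one] at this
    exact this.mono (hmρ w (not_lt.mp h1) (not_lt.mp h2))
  have hσb : ∀ w, |σ w| ≤ m * ε := fun w => by
    simp only [hσ]
    rw [abs_mul, abs_of_pos hm]
    refine mul_le_mul_of_nonneg_left (abs_le.mpr ⟨le_max_left _ _, max_le (by linarith)
      (min_le_left _ _)⟩) hm.le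
  set q : ℤ → ℂ → ℝ := fun j z => m * ε - (-1 : ℝ) ^ j * σ (p + exp z) with hq
  have habs : ∀ j : ℤ, |(-1 : ℝ) ^ j| = 1 := fun j => by simp [abs_zpow]
  refine ⟨fun z => 2 * m * ε * (⌊z.im / Real.pi⌋ : ℝ) + q ⌊z.im / Real.pi⌋ z, 2 * m * ε,
    by positivity, fun z hz => ?_, fun z => ?_⟩
  · refine lipAt_glue (s := fun z : ℂ => z.im / Real.pi) (by fun_prop) (fun j => ?_) fun j hj => ?_
    · have := (((hσl _).tl h0).const_mul (tl_nonneg h0 p z) ((-1 : ℝ) ^ j)).const_sub (m * ε)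
      rwa [habs, one_mul] at this
    · have hj' : z.im = j * Real.pi := by
        rw [← hj]
        field_simp
      have hre : (p + exp z).re - p.re = ‖exp z‖ * (-1 : ℝ) ^ j := by
        rw [add_re, exp_re, norm_exp, hj', Real.cos_int_mul_pi]
        ring
      rcases Int.even_or_odd j with he | ho
      · have e1 : (-1 : ℝ) ^ j = 1 := he.neg_one_zpow
        have e2 : (-1 : ℝ) ^ (j - 1) = -1 := (he.sub_odd odd_one).neg_one_zpow
        have e3 : σ (p + exp z) = m * ε := by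
          simp only [hσ, hre, e1, mul_one]
          rw [min_eq_left hz, max_eq_right (by linarith only [hε])]
        simp only [hq, e1, e2, e3]
        constructor <;> ring
      · have e1 : (-1 : ℝ) ^ j = -1 := ho.neg_one_zpow
        have e2 : (-1 : ℝ) ^ (j - 1) = 1 := (ho.sub_odd odd_one).neg_one_zpow
        have e3 : σ (p + exp z) = m * (-ε) := by
          simp only [hσ, hre, e1]
          rw [max_eq_left ((min_le_right _ _).trans (by linarith))]
        simp only [hq, e1, e2, e3]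
        constructor <;> ring
  · have h1 : |(-1 : ℝ) ^ ⌊z.im / Real.pi⌋ * σ (p + exp z)| ≤ m * ε := by
      rw [abs_mul, habs, one_mul]
      exact hσb _
    rw [abs_le] at h1
    have h2 := Int.floor_le (z.im / Real.pi)
    have h3 := Int.lt_floor_add_one (z.im / Real.pi)
    have h4 : 0 < 2 * m * ε := by positivity
    simp only [hq]
    constructor <;> nlinarith only [h1, h3, h2]

theorem exists_far {A : ℂ → ℝ} {δ : ℝ} (hδ : 0 < δ)
    (hA : ∀ z, δ * (z.im / Real.pi - 1) ≤ A z ∧ A z ≤ δ * (z.im / Real.pi + 1)) (z z' : ℂ)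
    (K : ℝ) : ∃ y, exp y = exp z' ∧ K ≤ A y - A z := by
  obtain ⟨k, hk⟩ := exists_nat_ge (K / δ + z.im / Real.pi - z'.im / Real.pi + 2)
  refine ⟨z' + k * (2 * Real.pi * I), by rw [exp_add, exp_nat_mul_two_pi_mul_I, mul_one], ?_⟩
  have h1 := (hA (z' + k * (2 * Real.pi * I))).1
  have h2 := (hA z).2
  have h3 : (z' + k * (2 * Real.pi * I)).im / Real.pi = z'.im / Real.pi + 2 * k := by
    have := Real.pi_ne_zero
    simp
    field_simp
  rw [h3] at h1
  have h4 : K = δ * (K / δ) := by field_simp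
  have h5 : (0 : ℝ) ≤ k := Nat.cast_nonneg k
  nlinarith only [hδ, hk, h1, h2, h4]

/-- lower bound: far sheets can only be reached through the puncture -/
theorem tl_lower (hρ : Continuous ρ) (h0 : ∀ x, 0 ≤ ρ x) (hS : Strip ρ) (p z z' : ℂ) {η : ℝ}
    (hη : 0 < η) : ∃ y, exp y = exp z' ∧
      cdist ρ p (p + exp z) + cdist ρ p (p + exp z') - η ≤ cdist (tl ρ p) z y := by
  obtain ⟨M, hM0, hM⟩ := exists_bound hρ h0 p
  set ε := min 1 (η / (2 * M)) with hεd
  have hε : 0 < ε := lt_min one_pos (by positivity)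
  obtain ⟨A, δ, hδ, hA, hA'⟩ := exists_winding h0 hS p hε
  set D : ℂ → ℝ := fun y => max (cdist ρ p (p + exp y) - η / 2) 0 with hD
  obtain ⟨y, hy, hK⟩ := exists_far hδ hA' z z' (D z + D z')
  have hDy : D y = D z' := by simp only [hD, hy]
  refine ⟨y, hy, ?_⟩
  have key := clamp_le (tl_cont hρ p) (tl_nonneg h0 p) (D := D) (A := A)
    (fun x => le_max_right _ _) (fun x => (((lipAt_cdist hρ h0 p _).tl h0).sub_const _).max
      (lipAt_const (tl_nonneg h0 p x) 0 x)) (fun x => ?_) (z := z) (z' := y) (by rwa [hDy])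
  · rw [hDy] at key
    have h1 : cdist ρ p (p + exp z) - η / 2 ≤ D z := le_max_left _ _
    have h2 : cdist ρ p (p + exp z') - η / 2 ≤ D z' := le_max_left _ _
    linarith only [key, h1, h2]
  by_cases hx : ε ≤ ‖exp x‖
  · exact Or.inr (hA x hx)
  · refine Or.inl ?_
    filter_upwards [(isOpen_lt (by fun_prop : Continuous fun x : ℂ => ‖exp x‖)
      continuous_const).mem_nhds (not_le.mp hx)] with v hv
    have hv' : ‖exp v‖ < ε := hv
    have h1 := cdist_le_seg hρ h0 p (p + exp v) (M := M) fun s s0 s1 => hM _ (by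
      rw [add_sub_cancel_left, norm_mul, norm_real, Real.norm_of_nonneg s0]
      have : ε ≤ 1 := min_le_left _ _
      nlinarith only [hv, s0, s1, this])
    rw [add_sub_cancel_left] at h1
    have h2 : M * ε ≤ η / 2 := by
      calc M * ε ≤ M * (η / (2 * M)) := mul_le_mul_of_nonneg_left (min_le_right _ _) hM0.le
        _ = η / 2 := by field_simp
    exact max_eq_right (by nlinarith only [hM0, hv, h1, h2])

end Pool.Agent.MP_ae50c7_an

end DoublePart

section WirtPart
/-!
Wirtinger derivatives; solutions given by locally univalent entire functions.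
-/


namespace Pool.Agent.MP_ae50c7_an

open Filter Topology Set Complex ComplexConjugate

/-- the real-linear map `h ↦ A h + B conj h` -/
noncomputable def W (A B : ℂ) : ℂ →L[ℝ] ℂ :=
  A • ContinuousLinearMap.id ℝ ℂ + B • (conjCLE : ℂ →L[ℝ] ℂ)

theorem W_apply (A B h : ℂ) : W A B h = A * h + B * conj h := by simp [W]

/-- `f` is real differentiable at `z` with Wirtinger derivatives `A`, `B` -/
def HasW (f : ℂ → ℂ) (A B z : ℂ) : Prop := HasFDerivAt f (W A B) z

variable {f g : ℂ → ℂ} {A B C D z : ℂ}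

theorem HasW.congr (h : HasW f A B z) (h1 : A = C) (h2 : B = D) : HasW f C D z := h1 ▸ h2 ▸ h

theorem hasW_of_hasDerivAt (h : HasDerivAt f A z) : HasW f A 0 z := by
  refine (h.hasFDerivAt.restrictScalars ℝ).congr_fderiv ?_
  ext1 v
  simp [W_apply, mul_comm]

theorem HasW.hasDerivAt (h : HasW f A 0 z) : HasDerivAt f A z := by
  refine (hasFDerivAt_of_restrictScalars ℝ (f' := ContinuousLinearMap.toSpanSingleton ℂ A) h
    ?_).hasDerivAt.congr_deriv (by simp)
  ext1 v
  simp [W_apply, mul_comm]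

theorem hasW_const (c z : ℂ) : HasW (fun _ => c) 0 0 z :=
  hasW_of_hasDerivAt (hasDerivAt_const z c)

theorem HasW.add (h : HasW f A B z) (k : HasW g C D z) :
    HasW (fun y => f y + g y) (A + C) (B + D) z := by
  refine (HasFDerivAt.add h k).congr_fderiv ?_
  ext1 v
  simp only [add_apply, W_apply]
  ring

theorem HasW.sub (h : HasW f A B z) (k : HasW g C D z) :
    HasW (fun y => f y - g y) (A - C) (B - D) z := by
  refine (HasFDerivAt.sub h k).congr_fderiv ?_
  ext1 v
  simp only [sub_apply, W_apply]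
  ring

theorem HasW.mul (h : HasW f A B z) (k : HasW g C D z) :
    HasW (fun y => f y * g y) (A * g z + f z * C) (B * g z + f z * D) z := by
  refine (HasFDerivAt.mul h k).congr_fderiv ?_
  ext1 v
  simp only [add_apply, smul_apply, W_apply, smul_eq_mul]
  ring

theorem HasW.const_mul (h : HasW f A B z) (c : ℂ) :
    HasW (fun y => c * f y) (c * A) (c * B) z :=
  ((hasW_const c z).mul h).congr (by ring) (by ring)

theorem HasW.conj (h : HasW f A B z) : HasW (fun y => conj (f y)) (conj B) (conj A) z := by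
  refine ((conjCLE : ℂ →L[ℝ] ℂ).hasFDerivAt.comp z h).congr_fderiv ?_
  ext1 v
  simp [W_apply, add_comm]

theorem HasW.comp {φ : ℂ → ℂ} {φ' : ℂ} (h : HasW f A B z) (hφ : HasDerivAt φ φ' (f z)) :
    HasW (fun y => φ (f y)) (φ' * A) (φ' * B) z := by
  refine ((hφ.hasFDerivAt.restrictScalars ℝ).comp z h).congr_fderiv ?_
  ext1 v
  simp only [ContinuousLinearMap.comp_apply, ContinuousLinearMap.coe_restrictScalars',
    ContinuousLinearMap.toSpanSingleton_apply, W_apply, smul_eq_mul]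
  ring

theorem W_eq (L : ℂ →L[ℝ] ℂ) : L = W ((L 1 - I * L I) / 2) ((L 1 + I * L I) / 2) := by
  ext1 v
  have h1 : L v = v.re * L 1 + v.im * L I := by
    conv_lhs => rw [show v = v.re • (1 : ℂ) + v.im • I by simp]
    rw [map_add, map_smul, map_smul]
    simp only [real_smul]
  have h2 : conj v = v.re - v.im * I := by apply Complex.ext <;> simp
  have h3 : v = v.re + v.im * I := (re_add_im v).symm
  rw [W_apply, h1, h2]
  nth_rewrite 3 [h3]
  linear_combination (v.im * L I) * I_mul_I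

theorem exists_hasW (h : DifferentiableAt ℝ f z) : ∃ A B, HasW f A B z :=
  ⟨_, _, h.hasFDerivAt.congr_fderiv (W_eq _)⟩

/-- `c ↦ (h ↦ 2 Re (c h))` -/
noncomputable def Phi : ℂ →L[ℝ] ℂ →L[ℝ] ℝ :=
  (2 : ℝ) • (ContinuousLinearMap.compL ℝ ℂ ℂ ℝ reCLM).comp (ContinuousLinearMap.mul ℝ ℂ)

theorem Phi_apply (c h : ℂ) : Phi c h = 2 * (c * h).re := by simp [Phi]

theorem second_deriv {u : ℂ → ℝ} {G : ℂ → ℂ}
    (hu : ∀ y, HasW (fun y => (u y : ℂ)) (G y) (conj (G y)) y) (hG : HasW G A B z) (a b : ℂ) :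
    fderiv ℝ (fderiv ℝ u) z a b = 2 * ((A * a + B * conj a) * b).re := by
  have h1 : fderiv ℝ u = fun y => Phi (G y) := by
    funext y
    have h2 : HasFDerivAt u (reCLM.comp (W (G y) (conj (G y)))) y :=
      reCLM.hasFDerivAt.comp y (hu y)
    rw [h2.fderiv]
    ext1 v
    simp [W_apply, Phi_apply]
    ring
  have h3 : HasFDerivAt (fun y => Phi (G y)) (Phi.comp (W A B)) z := Phi.hasFDerivAt.comp z hG
  rw [h1, h3.fderiv, ContinuousLinearMap.comp_apply, Phi_apply, W_apply]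

theorem laplacian_eq {u : ℂ → ℝ} {G : ℂ → ℂ}
    (hu : ∀ y, HasW (fun y => (u y : ℂ)) (G y) (conj (G y)) y) (hG : HasW G A B z) :
    Laplacian.laplacian u z = 4 * B.re := by
  rw [InnerProductSpace.laplacian_eq_iteratedFDeriv_complexPlane]
  simp only [iteratedFDeriv_two_apply, Matrix.cons_val_zero, Matrix.cons_val_one,
    second_deriv hu hG]
  simp only [mul_one, map_one, add_re, conj_I, mul_neg, mul_re, I_re, mul_zero, I_im, zero_sub, neg_re, neg_neg, add_im, mul_im, add_zero, neg_im, neg_add_rev]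
  ring

/-- density of the pull back of the round metric under `g` -/
noncomputable def rho (g : ℂ → ℂ) (z : ℂ) : ℝ := 2 * ‖deriv g z‖ / (1 + ‖g z‖ ^ 2)

/-- locally univalent entire function -/
def Loc (g : ℂ → ℂ) : Prop := Differentiable ℂ g ∧ ∀ z, deriv g z ≠ 0

theorem Loc.deriv_diff (h : Loc g) : Differentiable ℂ (deriv g) :=
  fun z => (h.1.analyticAt z).deriv.differentiableAt

theorem Loc.pos (h : Loc g) (z : ℂ) : 0 < rho g z := by
  have := norm_pos_iff.mpr (h.2 z)
  unfold rho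
  positivity

theorem Loc.cont (h : Loc g) : Continuous (rho g) := by
  have h1 := h.1.continuous
  have h2 := h.deriv_diff.continuous
  unfold rho
  exact Continuous.div (by fun_prop) (by fun_prop) fun z => by positivity

theorem Loc.isSolution (h : Loc g) : IsSolution fun z => Real.log (rho g z) := by
  have c1 : ContDiff ℝ 2 g := (h.1.contDiff (n := 2)).restrict_scalars ℝ
  have c2 : ContDiff ℝ 2 (deriv g) := (h.deriv_diff.contDiff (n := 2)).restrict_scalars ℝ
  refine ⟨ContDiff.log ?_ fun z => (h.pos z).ne', fun z => ?_⟩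
  · exact (contDiff_const.mul (c2.norm ℝ h.2)).div (contDiff_const.add (c1.norm_sq ℝ))
      fun z => by positivity
  have d1 : ∀ y, HasW g (deriv g y) 0 y := fun y => hasW_of_hasDerivAt (h.1 y).hasDerivAt
  have d2 : ∀ y, HasW (deriv g) (deriv (deriv g) y) 0 y := fun y =>
    hasW_of_hasDerivAt (h.deriv_diff y).hasDerivAt
  have n1 : ∀ y, deriv g y * conj (deriv g y) = ((‖deriv g y‖ ^ 2 : ℝ) : ℂ) := fun y => by
    rw [mul_conj']; push_cast; rfl
  have n2 : ∀ y, 1 + g y * conj (g y) = ((1 + ‖g y‖ ^ 2 : ℝ) : ℂ) := fun y => by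
    rw [mul_conj']; push_cast; rfl
  have p1 : ∀ y, 0 < ‖deriv g y‖ := fun y => norm_pos_iff.mpr (h.2 y)
  have p2 : ∀ y, 0 < 1 + ‖g y‖ ^ 2 := fun y => by positivity
  have z2 : ∀ y, 1 + g y * conj (g y) ≠ 0 := fun y => by
    rw [n2]; exact ofReal_ne_zero.mpr (p2 y).ne'
  have e : (fun y => ((Real.log (rho g y) : ℝ) : ℂ)) = fun y => (Real.log 2 : ℂ) +
      (1 / 2) * log (deriv g y * conj (deriv g y)) - log (1 + g y * conj (g y)) := by
    funext y
    rw [n1, n2, ← ofReal_log (by positivity), ← ofReal_log (p2 y).le, rho,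
      Real.log_div (by have := p1 y; positivity) (p2 y).ne',
      Real.log_mul two_ne_zero (p1 y).ne', Real.log_pow]
    push_cast
    ring
  set G : ℂ → ℂ := fun y => (1 / 2) * (deriv (deriv g) y * (deriv g y)⁻¹) -
    deriv g y * conj (g y) * (1 + g y * conj (g y))⁻¹ with hG
  have hu : ∀ y, HasW (fun y => ((Real.log (rho g y) : ℝ) : ℂ)) (G y) (conj (G y)) y := fun y => by
    rw [e]
    have a1 := ((d2 y).mul (d2 y).conj).comp (hasDerivAt_log (by
      rw [n1]; exact ofReal_mem_slitPlane.mpr (by have := p1 y; positivity)))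
    have a2 := ((hasW_const 1 y).add ((d1 y).mul (d1 y).conj)).comp (hasDerivAt_log (by
      rw [n2]; exact ofReal_mem_slitPlane.mpr (p2 y)))
    have k1 := h.2 y
    have k2 : conj (deriv g y) ≠ 0 := by simpa using k1
    have k3 := z2 y
    have k4 : 1 + conj (g y) * g y ≠ 0 := by rwa [mul_comm]
    refine (((hasW_const _ y).add (a1.const_mul (1 / 2))).sub a2).congr ?_ ?_
    · simp only [hG, map_zero]
      field_simp
      ring
    · simp only [hG, map_sub, map_mul, map_inv₀, map_add, map_one, conj_conj, map_div₀,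
        map_ofNat]
      field_simp
      ring
  have d3 : HasDerivAt (fun y => (1 / 2) * (deriv (deriv g) y * (deriv g y)⁻¹))
      (deriv (fun y => (1 / 2) * (deriv (deriv g) y * (deriv g y)⁻¹)) z) z := by
    refine DifferentiableAt.hasDerivAt ?_
    have := ((h.deriv_diff.analyticAt z).deriv).differentiableAt
    exact (this.mul ((h.deriv_diff z).inv (h.2 z))).const_mul _
  have hGW := (hasW_of_hasDerivAt d3).sub (((d2 z).mul (d1 z).conj).mul
    (((hasW_const 1 z).add ((d1 z).mul (d1 z).conj)).comp (hasDerivAt_inv (z2 z))))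
  have hB : (0 - ((0 * conj (g z) + deriv g z * conj (deriv g z)) * (1 + g z * conj (g z))⁻¹ +
      deriv g z * conj (g z) * (-((1 + g z * conj (g z)) ^ 2)⁻¹ *
        (0 + (0 * conj (g z) + g z * conj (deriv g z)))))) =
      ((-(‖deriv g z‖ ^ 2 / (1 + ‖g z‖ ^ 2) ^ 2) : ℝ) : ℂ) := by
    rw [ofReal_neg, ofReal_div, ofReal_pow (1 + ‖g z‖ ^ 2), ← n1, ← n2]
    have := z2 z
    field_simp
    ring
  rw [laplacian_eq hu (hGW.congr rfl hB), ofReal_re, two_mul, Real.exp_add,
    Real.exp_log (h.pos z), rho]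
  have := p2 z
  field_simp
  ring

end Pool.Agent.MP_ae50c7_an

end WirtPart

section OdePart
/-!
Entire solutions of `φ'' = - T φ` for entire `T` (Picard series).
-/


namespace Pool.Agent.MP_ae50c7_an

open Filter Topology Set Complex

theorem prim_bound {h H : ℂ → ℂ} {z0 : ℂ} (hc : Continuous h) (hH : ∀ z, HasDerivAt H (h z) z)
    (h0 : H z0 = 0) {C R : ℝ} {n : ℕ} (hb : ∀ z, ‖z - z0‖ ≤ R → ‖h z‖ ≤ C * ‖z - z0‖ ^ n)
    (z : ℂ) (hz : ‖z - z0‖ ≤ R) : ‖H z‖ ≤ C * ‖z - z0‖ ^ (n + 1) / (n + 1) := by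
  have hd : ∀ t : ℝ, HasDerivAt (fun t : ℝ => H (z0 + (t : ℂ) * (z - z0)))
      (h (z0 + (t : ℂ) * (z - z0)) * (z - z0)) t := fun t => by
    have h1 : HasDerivAt (fun w : ℂ => z0 + w * (z - z0)) (z - z0) (t : ℂ) := by
      simpa using ((hasDerivAt_id (t : ℂ)).mul_const (z - z0)).const_add z0
    exact ((hH _).comp (t : ℂ) h1).comp_ofReal
  have h2 := intervalIntegral.integral_eq_sub_of_hasDerivAt (a := 0) (b := 1) (fun t _ => hd t)
    (Continuous.intervalIntegrable (by fun_prop) _ _)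
  simp only [ofReal_one, one_mul, add_sub_cancel, ofReal_zero, zero_mul, add_zero, h0,
    sub_zero] at h2
  rw [← h2]
  refine (intervalIntegral.norm_integral_le_of_norm_le
    (g := fun t : ℝ => C * ‖z - z0‖ ^ (n + 1) * t ^ n) zero_le_one
    (Eventually.of_forall fun t ht => ?_) (Continuous.intervalIntegrable (by fun_prop) _ _)).trans
    (le_of_eq ?_)
  · have e : ‖z0 + (t : ℂ) * (z - z0) - z0‖ = t * ‖z - z0‖ := by
      rw [add_sub_cancel_left, norm_mul, norm_real, Real.norm_of_nonneg ht.1.le]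
    have := hb (z0 + (t : ℂ) * (z - z0)) (by rw [e]; nlinarith only [ht.2, norm_nonneg (z - z0), hz])
    rw [e] at this
    rw [norm_mul]
    calc _ ≤ C * (t * ‖z - z0‖) ^ n * ‖z - z0‖ := mul_le_mul_of_nonneg_right this (norm_nonneg _)
      _ = _ := by ring
  · rw [intervalIntegral.integral_const_mul, integral_pow]
    simp only [one_pow, ne_eq, Nat.add_eq_zero_iff, one_ne_zero, and_false, not_false_eq_true, zero_pow, sub_zero, one_div]
    ring

theorem exists_prim (z0 : ℂ) (h : ℂ → ℂ) : ∃ H : ℂ → ℂ, Differentiable ℂ h →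
    H z0 = 0 ∧ ∀ z, HasDerivAt H (h z) z := by
  by_cases hd : Differentiable ℂ h
  · obtain ⟨H, h1, h2⟩ := hd.isExactOn_univ.with_val_at z0 0
    exact ⟨H, fun _ => ⟨h1, fun z => h2 z (mem_univ z)⟩⟩
  · exact ⟨0, fun h' => absurd h' hd⟩

theorem hasDerivAt_tsum_entire {F F' : ℕ → ℂ → ℂ} {z0 : ℂ} (hF : ∀ n z, HasDerivAt (F n) (F' n z) z)
    (hb : ∀ R : ℝ, ∃ u : ℕ → ℝ, Summable u ∧ ∀ n z, ‖z - z0‖ ≤ R → ‖F n z‖ ≤ u n) (z : ℂ) :
    HasDerivAt (fun w => ∑' n, F n w) (∑' n, F' n z) z := by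
  obtain ⟨u, hu, hle⟩ := hb (‖z - z0‖ + 1)
  have hz : z ∈ Metric.ball z0 (‖z - z0‖ + 1) := by simp [dist_eq_norm]
  have hd : ∀ n, DifferentiableOn ℂ (F n) (Metric.ball z0 (‖z - z0‖ + 1)) := fun n w _ =>
    (hF n w).differentiableAt.differentiableWithinAt
  have hle' : ∀ n w, w ∈ Metric.ball z0 (‖z - z0‖ + 1) → ‖F n w‖ ≤ u n := fun n w hw =>
    hle n w (le_of_lt (by simpa [dist_eq_norm] using hw))
  have h1 := (differentiableOn_tsum_of_summable_norm hu hd Metric.isOpen_ball hle').differentiableAt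
    (Metric.isOpen_ball.mem_nhds hz)
  have h2 := hasSum_deriv_of_summable_norm hu hd Metric.isOpen_ball hle' hz
  simp only [fun n => (hF n z).deriv] at h2
  rw [h2.tsum_eq]
  exact h1.hasDerivAt

theorem exists_ode {T : ℂ → ℂ} (hT : Differentiable ℂ T) (z0 : ℂ) :
    ∃ φ ψ : ℂ → ℂ, φ z0 = 0 ∧ ψ z0 = 1 ∧ (∀ z, HasDerivAt φ (ψ z) z) ∧
      ∀ z, HasDerivAt ψ (-(T z * φ z)) z := by
  choose P hP using exists_prim z0
  let f : ℕ → ℂ → ℂ := fun n => Nat.rec (fun z => z - z0) (fun _ g => P (P fun z => -(T z * g z))) n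
  let k : ℕ → ℂ → ℂ := fun n => P fun z => -(T z * f n z)
  have f0 : f 0 = fun z => z - z0 := rfl
  have fs : ∀ n, f (n + 1) = P (k n) := fun n => rfl
  have dP : ∀ h, Differentiable ℂ h → Differentiable ℂ (P h) := fun h hh z =>
    ((hP h hh).2 z).differentiableAt
  have df : ∀ n, Differentiable ℂ (f n) := fun n => by
    induction n with
    | zero => rw [f0]; fun_prop
    | succ n ih => exact dP _ (dP _ (hT.mul ih).neg)
  have dT : ∀ n, Differentiable ℂ fun z => -(T z * f n z) := fun n => (hT.mul (df n)).neg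
  have dk : ∀ n, Differentiable ℂ (k n) := fun n => dP _ (dT n)
  have bound : ∀ R : ℝ, ∃ M : ℝ, 0 ≤ M ∧ ∀ n z, ‖z - z0‖ ≤ R →
      ‖f n z‖ ≤ M ^ n / n.factorial * ‖z - z0‖ ^ (2 * n + 1) ∧
      ‖k n z‖ ≤ M ^ (n + 1) / n.factorial * ‖z - z0‖ ^ (2 * n + 2) := fun R => by
    obtain ⟨M, hM⟩ := (isCompact_closedBall z0 R).exists_bound_of_continuousOn
      hT.continuous.continuousOn
    have hM' : ∀ z, ‖z - z0‖ ≤ R → ‖T z‖ ≤ |M| := fun z hz =>
      (hM z (by simpa [dist_eq_norm] using hz)).trans (le_abs_self M)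
    have step : ∀ n, (∀ z, ‖z - z0‖ ≤ R →
        ‖f n z‖ ≤ |M| ^ n / n.factorial * ‖z - z0‖ ^ (2 * n + 1)) → ∀ z, ‖z - z0‖ ≤ R →
        ‖k n z‖ ≤ |M| ^ (n + 1) / n.factorial * ‖z - z0‖ ^ (2 * n + 2) := fun n ih z hz => by
      have := prim_bound (dT n).continuous (hP _ (dT n)).2 (hP _ (dT n)).1
        (C := |M| ^ (n + 1) / n.factorial) (n := 2 * n + 1) (R := R) (fun w hw => by
          rw [norm_neg, norm_mul]
          calc _ ≤ |M| * (|M| ^ n / n.factorial * ‖w - z0‖ ^ (2 * n + 1)) :=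
                mul_le_mul (hM' w hw) (ih w hw) (norm_nonneg _) (abs_nonneg M)
            _ = _ := by ring) z hz
      refine this.trans (div_le_self (by positivity) ?_)
      have : (0 : ℝ) ≤ ((2 * n + 1 : ℕ) : ℝ) := Nat.cast_nonneg _
      linarith only []
    have main : ∀ n z, ‖z - z0‖ ≤ R →
        ‖f n z‖ ≤ |M| ^ n / n.factorial * ‖z - z0‖ ^ (2 * n + 1) := fun n => by
      induction n with
      | zero => intro z _; simp [f0]
      | succ n ih =>
        intro z hz
        have := prim_bound (dk n).continuous (hP _ (dk n)).2 (hP _ (dk n)).1 (step n ih) z hz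
        rw [fs]
        refine this.trans ?_
        have h1 : ((n : ℝ) + 1) ≤ ((2 * n + 2 : ℕ) : ℝ) + 1 := by
          push_cast
          have : (0 : ℝ) ≤ n := Nat.cast_nonneg _
          linarith only []
        calc _ ≤ |M| ^ (n + 1) / n.factorial * ‖z - z0‖ ^ (2 * n + 2 + 1) / ((n : ℝ) + 1) :=
              div_le_div_of_nonneg_left (by positivity) (by positivity) h1
          _ = _ := by
              rw [Nat.factorial_succ]
              push_cast
              field_simp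
              ring
    exact ⟨|M|, abs_nonneg M, fun n z hz => ⟨main n z hz, step n (main n) z hz⟩⟩
  have sf : ∀ R : ℝ, ∃ u : ℕ → ℝ, Summable u ∧ ∀ n z, ‖z - z0‖ ≤ R → ‖f n z‖ ≤ u n := fun R => by
    obtain ⟨M, hM, hb⟩ := bound R
    refine ⟨fun n => R * ((M * R ^ 2) ^ n / n.factorial),
      (Real.summable_pow_div_factorial _).mul_left _, fun n z hz => (hb n z hz).1.trans ?_⟩
    calc _ ≤ M ^ n / n.factorial * R ^ (2 * n + 1) := by gcongr
      _ = _ := by beta_reduce; rw [mul_pow, ← pow_mul]; ring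
  have sk : ∀ R : ℝ, ∃ u : ℕ → ℝ, Summable u ∧ ∀ n z, ‖z - z0‖ ≤ R → ‖k n z‖ ≤ u n := fun R => by
    obtain ⟨M, hM, hb⟩ := bound R
    refine ⟨fun n => M * R ^ 2 * ((M * R ^ 2) ^ n / n.factorial),
      (Real.summable_pow_div_factorial _).mul_left _, fun n z hz => (hb n z hz).2.trans ?_⟩
    calc _ ≤ M ^ (n + 1) / n.factorial * R ^ (2 * n + 2) := by gcongr
      _ = _ := by beta_reduce; rw [mul_pow, ← pow_mul]; ring
  have sumf : ∀ z, Summable fun n => f n z := fun z => by
    obtain ⟨u, hu, hb⟩ := sf ‖z - z0‖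
    exact hu.of_norm_bounded fun n => hb n z le_rfl
  have d1 := hasDerivAt_tsum_entire (F := fun n => f (n + 1)) (F' := k) (z0 := z0)
    (fun n z => (hP _ (dk n)).2 z) fun R => by
      obtain ⟨u, hu, hb⟩ := sf R
      exact ⟨fun n => u (n + 1), (summable_nat_add_iff 1).mpr hu, fun n => hb (n + 1)⟩
  have d2 := hasDerivAt_tsum_entire (F := k) (F' := fun n z => -(T z * f n z)) (z0 := z0)
    (fun n z => (hP _ (dT n)).2 z) sk
  refine ⟨fun z => (z - z0) + ∑' n, f (n + 1) z, fun z => 1 + ∑' n, k n z, ?_, ?_, fun z => ?_,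
    fun z => ?_⟩
  · have : ∀ n, f (n + 1) z0 = 0 := fun n => (hP _ (dk n)).1
    simp [this]
  · have : ∀ n, k n z0 = 0 := fun n => (hP _ (dT n)).1
    simp [this]
  · exact ((hasDerivAt_id z).sub_const z0).add (d1 z)
  · refine ((d2 z).const_add 1).congr_deriv ?_
    rw [tsum_neg, tsum_mul_left, (sumf z).tsum_eq_zero_add, f0]

end Pool.Agent.MP_ae50c7_an

end OdePart

section LowerPart
/-!
The developing map of a `C²` solution and the lower bound `π`.
-/


namespace Pool.Agent.MP_ae50c7_an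

open Filter Topology Set Complex ComplexConjugate

theorem exists_grad {u : ℂ → ℝ} (hu : IsSolution u) : ∃ G A : ℂ → ℂ,
    (∀ y, HasW (fun y => (u y : ℂ)) (G y) (conj (G y)) y) ∧
      ∀ y, HasW G (A y) (-(exp (u y) * exp (u y)) / 4) y := by
  have d1 : Differentiable ℝ u := hu.1.differentiable (by norm_num)
  have d2 : Differentiable ℝ (fderiv ℝ u) :=
    (hu.1.fderiv_right (m := 1) (by norm_num)).differentiable one_ne_zero
  set G : ℂ → ℂ := fun y => ((fderiv ℝ u y 1 : ℝ) - I * (fderiv ℝ u y I : ℝ)) / 2 with hG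
  have h1 : ∀ y, HasW (fun y => (u y : ℂ)) (G y) (conj (G y)) y := fun y => by
    have a : HasFDerivAt (fun y => (u y : ℂ)) (ofRealCLM.comp (fderiv ℝ u y)) y :=
      ofRealCLM.hasFDerivAt.comp y (d1 y).hasFDerivAt
    have b : HasW (fun y => (u y : ℂ)) _ _ y := a.congr_fderiv (W_eq _)
    refine b.congr (by simp only [ContinuousLinearMap.comp_apply, ofRealCLM_apply, hG]) ?_
    simp only [ContinuousLinearMap.comp_apply, ofRealCLM_apply, hG, map_div₀, map_sub, conj_ofReal, map_mul, conj_I, neg_mul, sub_neg_eq_add, map_ofNat]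
  have dG : Differentiable ℝ G := by
    have e1 : Differentiable ℝ fun y => ((fderiv ℝ u y 1 : ℝ) : ℂ) :=
      ofRealCLM.differentiable.comp (d2.clm_apply (differentiable_const _))
    have e2 : Differentiable ℝ fun y => ((fderiv ℝ u y I : ℝ) : ℂ) :=
      ofRealCLM.differentiable.comp (d2.clm_apply (differentiable_const _))
    have e3 := (e1.fun_sub (e2.const_mul I)).mul_const (2 : ℂ)⁻¹
    simpa only [hG, div_eq_mul_inv] using e3
  choose A B hAB using fun y => exists_hasW (dG y)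
  refine ⟨G, A, h1, fun y => (hAB y).congr rfl ?_⟩
  have l1 := laplacian_eq h1 (hAB y)
  have l2 := hu.2 y
  have s1 := (hu.1.contDiffAt (x := y)).isSymmSndFDerivAt (by simp) 1 I
  rw [second_deriv h1 (hAB y), second_deriv h1 (hAB y)] at s1
  have e : -(exp (u y) * exp (u y)) / 4 = ((-Real.exp (2 * u y) / 4 : ℝ) : ℂ) := by
    rw [two_mul, Real.exp_add]
    push_cast
    rfl
  rw [e]
  apply Complex.ext
  · rw [ofReal_re]
    linarith only [l1, l2]
  · rw [ofReal_im]
    simp only [mul_one, map_one, mul_re, add_re, I_re, mul_zero, add_im, I_im, zero_sub, neg_add_rev, conj_I, mul_neg, neg_re, neg_neg, mul_eq_mul_left_iff, OfNat.ofNat_ne_zero, or_false] at s1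
    linarith only [s1]

theorem develop {u : ℂ → ℝ} (hu : IsSolution u) (z0 : ℂ) : ∃ (φ ψ φ' ψ' : ℂ → ℂ) (c : ℝ),
    (∀ z, HasDerivAt φ (φ' z) z) ∧ (∀ z, HasDerivAt ψ (ψ' z) z) ∧ φ z0 = 0 ∧ 0 < c ∧
      (∀ z, φ' z * ψ z - φ z * ψ' z = c) ∧
      ∀ z, Real.exp (u z) * (‖φ z‖ ^ 2 + ‖ψ z‖ ^ 2) = 2 * c := by
  obtain ⟨G, A, hU, hG⟩ := exists_grad hu
  set e : ℂ → ℂ := fun y => exp (u y) with he
  set v : ℂ → ℂ := fun y => exp (-(u y)) with hv
  have hE : ∀ y, HasW e (e y * G y) (e y * conj (G y)) y := fun y =>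
    (hU y).comp (hasDerivAt_exp _)
  have hV : ∀ y, HasW v (-(v y * G y)) (-(v y * conj (G y))) y := fun y =>
    ((hU y).comp (hasDerivAt_neg _).cexp).congr (by simp [hv]) (by simp [hv])
  have ev : ∀ y, v y * e y = 1 := fun y => by simp [he, hv, ← exp_add]
  have ce : ∀ y, conj (e y) = e y := fun y => by simp [he, ← exp_conj]
  have cv : ∀ y, conj (v y) = v y := fun y => by simp only [hv, ← exp_conj, map_neg, conj_ofReal]
  -- the closed form
  have hω : ∀ y, HasFDerivAt (fun y => W (-(G y * G y)) (e y * e y / 4))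
      ((W (-(2 * G y * A y)) (G y * (e y * e y) / 2)).smulRight (ContinuousLinearMap.id ℝ ℂ) +
        (W (G y * (e y * e y) / 2) (conj (G y) * (e y * e y) / 2)).smulRight
          (conjCLE : ℂ →L[ℝ] ℂ)) y := fun y => by
    have a1 : HasW (fun y => -(G y * G y)) (-(2 * G y * A y)) (G y * (e y * e y) / 2) y := by
      have := ((hG y).mul (hG y)).const_mul (-1)
      simp only [neg_one_mul] at this
      exact this.congr (by ring) (by simp only [he]; ring)
    have a2 : HasW (fun y => e y * e y / 4) (G y * (e y * e y) / 2)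
        (conj (G y) * (e y * e y) / 2) y := by
      have := ((hE y).mul (hE y)).const_mul (1 / 4)
      simp only [one_div, ← div_eq_inv_mul] at this
      exact this.congr (by ring) (by ring)
    have b1 := HasFDerivAt.smul_const a1 (ContinuousLinearMap.id ℝ ℂ)
    have b2 := HasFDerivAt.smul_const a2 (conjCLE : ℂ →L[ℝ] ℂ)
    exact b1.add b2
  obtain ⟨Q, hQ⟩ := convex_univ.exists_forall_hasFDerivAt_of_fderiv_symmetric (𝕜 := ℝ) isOpen_univ
    (ω := fun y => W (-(G y * G y)) (e y * e y / 4))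
    (fun y _ => (hω y).differentiableAt.differentiableWithinAt) (fun y _ a b => by
      rw [(hω y).fderiv]
      simp only [add_apply, ContinuousLinearMap.smulRight_apply, W_apply, neg_mul, smul_apply, ContinuousLinearMap.id_apply, smul_eq_mul, ContinuousLinearEquiv.coe_coe, ContinuousAlgEquiv.coeCLE_apply, conjCAE_apply]
      ring)
  have hP : ∀ y, HasDerivAt (fun y => G y + Q y) (A y - G y * G y) y := fun y =>
    (((hG y).add (g := Q) (hQ y (mem_univ y))).congr (by ring) (by simp only [he]; ring)).hasDerivAt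
  have hT : Differentiable ℂ fun y => A y - G y * G y := by
    have h1 : Differentiable ℂ fun y => G y + Q y := fun y => (hP y).differentiableAt
    have h2 : (fun y => A y - G y * G y) = deriv fun y => G y + Q y :=
      funext fun y => (hP y).deriv.symm
    rw [h2]
    exact fun z => (h1.analyticAt z).deriv.differentiableAt
  obtain ⟨φ, φ', h0, h1, hφ, hφ'⟩ := exists_ode hT z0
  set b : ℂ → ℂ := fun y => G y * φ y + φ' y with hb
  have hB : ∀ y, HasW b (G y * b y) (-(e y * e y) / 4 * φ y) y := fun y =>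
    (((hG y).mul (hasW_of_hasDerivAt (hφ y))).add (hasW_of_hasDerivAt (hφ' y))).congr
      (by simp only [hb]; ring) (by simp only [he]; ring)
  set ψ : ℂ → ℂ := fun y => 2 * conj (v y * b y) with hψ
  set ψ' : ℂ → ℂ := fun y => -(G y * ψ y) - e y * conj (φ y) / 2 with hψ'
  have hψd : ∀ y, HasDerivAt ψ (ψ' y) y := fun y => by
    refine ((((hV y).mul (hB y)).conj.const_mul 2).congr ?_ ?_).hasDerivAt
    · simp only [hψ', hψ, map_add, map_mul, map_neg, map_div₀, map_ofNat, conj_conj, ce, cv]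
      linear_combination (-(e y * conj (φ y)) / 2) * ev y
    · have : -(v y * G y) * b y + v y * (G y * b y) = 0 := by ring
      rw [this]
      simp
  have hW : ∀ y, φ' y * ψ y - φ y * ψ' y =
      ((2 * Real.exp (-(u y)) * ‖b y‖ ^ 2 + Real.exp (u y) * ‖φ y‖ ^ 2 / 2 : ℝ) : ℂ) := fun y => by
    push_cast
    rw [← mul_conj', ← mul_conj']
    simp only [hψ', hψ, map_mul, cv]
    simp only [hb, he, hv]
    ring
  have dφ' : Differentiable ℂ φ' := fun y => (hφ' y).differentiableAt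
  have dφ : Differentiable ℂ φ := fun y => (hφ y).differentiableAt
  have dψ : Differentiable ℂ ψ := fun y => (hψd y).differentiableAt
  have dψ' : Differentiable ℂ ψ' := by
    have h2 : ψ' = deriv ψ := funext fun y => (hψd y).deriv.symm
    rw [h2]
    exact fun z => (dψ.analyticAt z).deriv.differentiableAt
  have dW : Differentiable ℂ fun y => φ' y * ψ y - φ y * ψ' y := (dφ'.mul dψ).sub (dφ.mul dψ')
  obtain ⟨c, hc⟩ := AnalyticOnNhd.eq_const_of_im_eq_const (U := univ) (c₀ := 0)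
    (fun y _ => dW.analyticAt y) (fun y _ => by rw [hW, ofReal_im]) isOpen_univ isConnected_univ
  have hc0 : c = ((2 * Real.exp (-(u z0)) : ℝ) : ℂ) := by
    rw [← hc z0 (mem_univ _), hW]
    simp [hb, h0, h1]
  refine ⟨φ, ψ, φ', ψ', 2 * Real.exp (-(u z0)), hφ, hψd, h0, by positivity,
    fun z => (hc z (mem_univ z)).trans hc0, fun z => ?_⟩
  have h2 := ofReal_injective ((hW z).symm.trans ((hc z (mem_univ z)).trans hc0))
  have h3 : ‖ψ z‖ = 2 * (Real.exp (-(u z)) * ‖b z‖) := by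
    simp [hψ, hv, norm_exp]
  have h4 : Real.exp (u z) * Real.exp (-(u z)) = 1 := by simp [← Real.exp_add]
  rw [← h2, h3]
  linear_combination (4 * Real.exp (-(u z)) * ‖b z‖ ^ 2) * h4

theorem lipAt_arctan (w : ℂ) :
    LipAt (fun w : ℂ => 2 * Real.arctan ‖w‖) (2 / (1 + ‖w‖ ^ 2)) w := by
  have h1 := (lipAt_of_hasDerivAt ((Real.hasDerivAt_arctan ‖w‖).const_mul 2)).comp
    (g := fun w : ℂ => ‖w‖) (lipAt_norm w) (norm_nonneg _) zero_le_one
  refine h1.mono (le_of_eq ?_)
  rw [mul_one, Real.norm_of_nonneg (by positivity)]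
  ring

theorem lipAt_quot {φ ψ : ℂ → ℂ} {φ' ψ' z : ℂ} {c r : ℝ} (hφ : HasDerivAt φ φ' z)
    (hψ : HasDerivAt ψ ψ' z) (h0 : ψ z ≠ 0) (hc : ‖φ' * ψ z - φ z * ψ'‖ = c)
    (hr : r * (‖φ z‖ ^ 2 + ‖ψ z‖ ^ 2) = 2 * c) :
    LipAt (fun y => 2 * Real.arctan ‖φ y / ψ y‖) r z := by
  have h1 := (lipAt_arctan (φ z / ψ z)).comp (g := fun y => φ y / ψ y)
    (lipAt_of_hasDerivAt (hφ.div hψ h0)) (by positivity) (norm_nonneg _)
  refine h1.mono (le_of_eq ?_)
  have h2 : 0 < ‖ψ z‖ := norm_pos_iff.mpr h0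
  rw [norm_div, norm_div, hc, norm_pow]
  field_simp
  linarith

theorem IsSolution.cont {u : ℂ → ℝ} (hu : IsSolution u) : Continuous fun z => Real.exp (u z) :=
  Real.continuous_exp.comp hu.1.continuous

/-- every point has eccentricity at least `π` -/
theorem ecc_lower {u : ℂ → ℝ} (hu : IsSolution u) (z0 : ℂ) {r : ℝ} (hr : r < Real.pi) :
    ∃ z, r < cdist (fun z => Real.exp (u z)) z0 z := by
  classical
  by_contra hcon
  push Not at hcon
  obtain ⟨φ, ψ, φ', ψ', c, hφ, hψ, h0, hc, hW, hN⟩ := develop hu z0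
  set θ : ℂ → ℝ := fun z => if ψ z = 0 then Real.pi else 2 * Real.arctan ‖φ z / ψ z‖ with hθ
  have hne : ∀ z, ψ z = 0 → φ z ≠ 0 := fun z h1 h2 => by
    have := hN z
    simp [h1, h2] at this
    linarith
  have hl : ∀ z, LipAt θ (Real.exp (u z)) z := fun z => by
    by_cases hz : ψ z = 0
    · have h1 := (lipAt_quot (hψ z) (hφ z) (hne z hz) (c := c) (r := Real.exp (u z)) (by
        rw [← norm_neg, show -(ψ' z * φ z - ψ z * φ' z) = φ' z * ψ z - φ z * ψ' z by ring, hW,
          norm_real, Real.norm_of_nonneg hc.le]) (by rw [add_comm]; exact hN z)).const_sub Real.pi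
      refine h1.congr ?_
      filter_upwards [(hφ z).continuousAt.eventually_ne (hne z hz)] with y hy
      by_cases hy' : ψ y = 0
      · simp [hθ, hy']
      · have : ‖φ y / ψ y‖ = ‖ψ y / φ y‖⁻¹ := by rw [← norm_inv, inv_div]
        simp only [hθ, if_neg hy']
        rw [this, Real.arctan_inv_of_pos (norm_pos_iff.mpr (div_ne_zero hy' hy))]
        ring
    · have h1 := lipAt_quot (hφ z) (hψ z) hz (c := c) (r := Real.exp (u z)) (by
        rw [hW, norm_real, Real.norm_of_nonneg hc.le]) (hN z)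
      refine h1.congr ?_
      filter_upwards [(hψ z).continuousAt.eventually_ne hz] with y hy
      simp only [hθ, if_neg hy]
  have hz0 : θ z0 = 0 := by
    have : ψ z0 ≠ 0 := fun h => hne z0 h h0
    simp [hθ, this, h0]
  have hle : ∀ z, θ z ≤ r := fun z => by
    have := lip_le hu.cont (fun z => (Real.exp_pos _).le) hl z0 z
    linarith [hcon z]
  have hψ0 : ∀ z, ψ z ≠ 0 := fun z h => by
    have := hle z
    simp only [hθ, if_pos h] at this
    linarith
  have hr0 : 0 ≤ r := hz0 ▸ hle z0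
  have hbd : ∀ z, ‖φ z / ψ z‖ ≤ Real.tan (r / 2) := fun z => by
    have h1 := hle z
    simp only [hθ, if_neg (hψ0 z)] at h1
    rw [← Real.arctan_strictMono.le_iff_le, Real.arctan_tan (by linarith only [hr, hr0])
      (by linarith)]
    linarith
  have hd : Differentiable ℂ fun z => φ z / ψ z := fun z =>
    ((hφ z).div (hψ z) (hψ0 z)).differentiableAt
  have hconst : (fun z => φ z / ψ z) = fun _ => φ z0 / ψ z0 := funext fun z =>
    hd.apply_eq_apply_of_bounded (isBounded_iff_forall_norm_le.mpr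
      ⟨_, by rintro _ ⟨z, rfl⟩; exact hbd z⟩) z z0
  have h1 : HasDerivAt (fun z => φ z / ψ z) _ z0 := (hφ z0).div (hψ z0) (hψ0 z0)
  rw [hconst, hW] at h1
  have h2 := h1.unique (hasDerivAt_const z0 _)
  exact div_ne_zero (ofReal_ne_zero.mpr hc.ne') (pow_ne_zero 2 (hψ0 z0)) h2

end Pool.Agent.MP_ae50c7_an

end LowerPart

section FamilyPart
/-!
All finite values `D ≥ π` are diameters.
-/


namespace Pool.Agent.MP_ae50c7_an

open Filter Topology Set Complex

/-- `e` is the supremum of the distances from `p` -/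
def IsEcc (ρ : ℂ → ℝ) (p : ℂ) (e : ℝ) : Prop :=
  (∀ x, cdist ρ p x ≤ e) ∧ ∀ r < e, ∃ x, r < cdist ρ p x

/-- `D` is the supremum of all distances -/
def IsDiam (ρ : ℂ → ℝ) (D : ℝ) : Prop :=
  (∀ x y, cdist ρ x y ≤ D) ∧ ∀ r < D, ∃ x y, r < cdist ρ x y

variable {ρ : ℂ → ℝ} {g : ℂ → ℂ}

theorem le_cdiam {D : ℝ} (h : ∀ r < D, ∃ x y, r < cdist ρ x y) : ENNReal.ofReal D ≤ cdiam ρ := by
  refine le_of_forall_lt fun c hc => ?_
  have hc' : c ≠ ⊤ := ne_top_of_lt hc
  have h1 : c.toReal < D := ENNReal.toReal_lt_of_lt_ofReal hc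
  obtain ⟨x, y, hxy⟩ := h _ h1
  refine lt_of_lt_of_le ?_ (le_iSup₂ (f := fun x y => ENNReal.ofReal (cdist ρ x y)) x y)
  exact (ENNReal.lt_ofReal_iff_toReal_lt hc').mpr hxy

theorem IsDiam.cdiam_eq {D : ℝ} (h : IsDiam ρ D) : cdiam ρ = ENNReal.ofReal D :=
  le_antisymm (iSup₂_le fun x y => ENNReal.ofReal_le_ofReal (h.1 x y)) (le_cdiam h.2)

theorem Loc.deriv_tl (h : Loc g) (p z : ℂ) :
    HasDerivAt (fun z => g (p + exp z)) (deriv g (p + exp z) * exp z) z :=
  (h.1 _).hasDerivAt.comp z (hasDerivAt_pexp p z)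

theorem Loc.tl (h : Loc g) (p : ℂ) : Loc fun z => g (p + exp z) :=
  ⟨fun z => (h.deriv_tl p z).differentiableAt, fun z => by
    rw [(h.deriv_tl p z).deriv]; exact mul_ne_zero (h.2 _) (exp_ne_zero z)⟩

theorem Loc.rho_tl (h : Loc g) (p : ℂ) : rho (fun z => g (p + exp z)) = MP_ae50c7_an.tl (rho g) p := by
  funext z
  simp only [rho, MP_ae50c7_an.tl, (h.deriv_tl p z).deriv, norm_mul]
  ring

theorem Loc.exp_log (h : Loc g) : (fun z => Real.exp (Real.log (rho g z))) = rho g :=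
  funext fun z => Real.exp_log (h.pos z)

theorem Loc.ecc_lower (h : Loc g) (z0 : ℂ) {r : ℝ} (hr : r < Real.pi) :
    ∃ z, r < cdist (rho g) z0 z := by
  simpa only [h.exp_log] using MP_ae50c7_an.ecc_lower h.isSolution z0 hr

theorem IsEcc.exists_exp (h0 : ∀ x, 0 ≤ ρ x) {p : ℂ} {e r : ℝ} (h : IsEcc ρ p e) (he : 0 < e)
    (hr : r < e) : ∃ z, r < cdist ρ p (p + exp z) := by
  obtain ⟨x, hx⟩ := h.2 (max r 0) (max_lt hr he)
  have hxp : x - p ≠ 0 := fun h' => by
    rw [sub_eq_zero.mp h', cdist_self h0] at hx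
    exact absurd hx (not_lt.mpr (le_max_right _ _))
  exact ⟨log (x - p), by rw [exp_log hxp, add_sub_cancel]; exact (le_max_left _ _).trans_lt hx⟩

theorem IsEcc.tl (hρ : Continuous ρ) (h0 : ∀ x, 0 ≤ ρ x) (hS : Strip ρ) {p : ℂ} {e : ℝ}
    (h : IsEcc ρ p e) (he : 0 < e) (z : ℂ) :
    IsEcc (MP_ae50c7_an.tl ρ p) z (cdist ρ p (p + exp z) + e) := by
  refine ⟨fun y => (tl_upper hρ h0 p z y).trans (by linarith [h.1 (p + exp y)]), fun r hr => ?_⟩
  obtain ⟨z', hz'⟩ := h.exists_exp h0 he (r := r - cdist ρ p (p + exp z)) (by linarith)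
  obtain ⟨y, -, hy⟩ := tl_lower hρ h0 hS p z z'
    (η := (cdist ρ p (p + exp z) + cdist ρ p (p + exp z') - r) / 2) (by linarith)
  exact ⟨y, by linarith⟩

theorem IsEcc.diam (hρ : Continuous ρ) (h0 : ∀ x, 0 ≤ ρ x) (hS : Strip ρ) {p : ℂ} {e : ℝ}
    (h : IsEcc ρ p e) (he : 0 < e) : IsDiam (MP_ae50c7_an.tl ρ p) (2 * e) := by
  refine ⟨fun z y => (tl_upper hρ h0 p z y).trans
    (by linarith [h.1 (p + exp y), h.1 (p + exp z)]), fun r hr => ?_⟩
  obtain ⟨z, hz⟩ := h.exists_exp h0 he (r := r - e) (by linarith)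
  obtain ⟨y, hy⟩ := (h.tl hρ h0 hS he z).2 r (by linarith)
  exact ⟨z, y, hy⟩

/-- some solution with density bounded below on strips has a point of eccentricity `e` -/
def Q (e : ℝ) : Prop := ∃ g, Loc g ∧ Strip (rho g) ∧ ∃ p, IsEcc (rho g) p e

theorem Q.step {e e' : ℝ} (h : Q e) (he : 0 < e) (h1 : e < e') (h2 : e' < 2 * e) : Q e' := by
  obtain ⟨g, hg, hS, p, hp⟩ := h
  have h0 : ∀ x, 0 ≤ rho g x := fun x => (hg.pos x).le
  obtain ⟨x, hx⟩ := hp.2 (e' - e) (by linarith)
  obtain ⟨w, hw⟩ := intermediate_value_univ p x (continuous_cdist hg.cont h0 p)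
    (show e' - e ∈ Icc (cdist (rho g) p p) (cdist (rho g) p x) from
      ⟨by rw [cdist_self h0]; linarith, hx.le⟩)
  have hwp : w - p ≠ 0 := fun h' => by
    rw [sub_eq_zero.mp h', cdist_self h0] at hw
    linarith
  refine ⟨_, hg.tl p, ?_, log (w - p), ?_⟩
  · rw [hg.rho_tl]
    exact strip_tl hg.cont hg.pos p
  · have := hp.tl hg.cont h0 hS he (log (w - p))
    rw [exp_log hwp, add_sub_cancel, hw, sub_add_cancel] at this
    rwa [hg.rho_tl]

theorem loc_id : Loc fun z => z := ⟨differentiable_id, fun z => by simp⟩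

theorem rho_id (w : ℂ) : rho (fun z => z) w = 2 / (1 + ‖w‖ ^ 2) := by simp [rho]

theorem sphere_le (w : ℂ) : cdist (rho fun z => z) 0 w ≤ 2 * Real.arctan ‖w‖ := by
  have h0 : ∀ x, 0 ≤ rho (fun z => z) x := fun x => (loc_id.pos x).le
  have hd : ∀ t : ℝ, HasDerivAt (fun t : ℝ => 2 * Real.arctan (t * ‖w‖))
      (2 * (1 / (1 + (t * ‖w‖) ^ 2) * ‖w‖)) t := fun t => by
    have h1 : HasDerivAt (fun t : ℝ => t * ‖w‖) ‖w‖ t := by
      simpa using (hasDerivAt_id t).mul_const ‖w‖
    exact h1.arctan.const_mul 2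
  have hg : ∀ t : ℝ, HasDerivAt (fun t : ℝ => (t : ℂ) * w) w t := fun t => by
    simpa using ((hasDerivAt_id t).ofReal_comp).mul_const w
  have := fence (h := cdist (rho fun z => z) 0) (ρ := rho fun z => z)
    (γ := fun t : ℝ => (t : ℂ) * w) (γ' := fun _ => w) (B := fun t => 2 * Real.arctan (t * ‖w‖))
    (B' := fun t => 2 * (1 / (1 + (t * ‖w‖) ^ 2) * ‖w‖)) zero_le_one h0
    (lipAt_cdist loc_id.cont h0 0) (by fun_prop) (fun t _ => (hg t).hasDerivWithinAt)
    (fun t _ => (hd t).continuousAt.continuousWithinAt) (fun t _ => (hd t).hasDerivWithinAt) ?_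
  · simpa only [ge_iff_le, ofReal_one, one_mul, ofReal_zero, zero_mul, cdist_self h0, sub_zero, Real.arctan_zero, mul_zero] using this
  · intro t ht
    rw [rho_id, norm_mul, norm_real, Real.norm_of_nonneg ht.1]
    exact le_of_eq (by ring)

/-- the density of the solution `t + exp z` -/
noncomputable def rt (t : ℝ) : ℂ → ℝ := tl (rho fun z => z) t

theorem rt_cont (t : ℝ) : Continuous (rt t) := tl_cont loc_id.cont _

theorem rt_nonneg (t : ℝ) (z : ℂ) : 0 ≤ rt t z := tl_nonneg (fun x => (loc_id.pos x).le) _ z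

theorem rt_zero_le (z z' : ℂ) : cdist (rt 0) z z' ≤ Real.pi := by
  have h0 : ∀ x, 0 ≤ rho (fun z => z) x := fun x => (loc_id.pos x).le
  have key : ∀ z z', cdist (rt 0) z z' ≤ 2 * Real.arctan ‖exp z‖ + 2 * Real.arctan ‖exp z'‖ :=
    fun z z' => by
      have := tl_upper loc_id.cont h0 0 z z'
      simp only [zero_add] at this
      have h1 := sphere_le (exp z)
      have h2 := sphere_le (exp z')
      simp only [rt, ofReal_zero]
      linarith
  have h1 := cdist_comp_le (rt_cont 0) (rt_nonneg 0) (rt_cont 0) (rt_nonneg 0) (g := fun z => -z)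
    (g' := fun _ => -1) (fun x => hasDerivAt_neg x) (fun x => le_of_eq (by
      have : 0 < ‖exp x‖ := norm_pos_iff.mpr (exp_ne_zero x)
      simp only [rt, tl, rho_id, ofReal_zero, zero_add, exp_neg, norm_inv, norm_neg, norm_one]
      field_simp
      ring)) (-z) (-z')
  simp only [neg_neg] at h1
  have h2 := key (-z) (-z')
  rw [exp_neg, exp_neg, norm_inv, norm_inv,
    Real.arctan_inv_of_pos (norm_pos_iff.mpr (exp_ne_zero z)),
    Real.arctan_inv_of_pos (norm_pos_iff.mpr (exp_ne_zero z'))] at h2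
  linarith [key z z']

theorem rt_eq (t : ℝ) : rho (fun z => (t : ℂ) + exp z) = rt t := loc_id.rho_tl t

theorem Q_pi : Q Real.pi := by
  refine ⟨_, loc_id.tl ((0 : ℝ) : ℂ), ?_, 0, ?_, fun r hr => (loc_id.tl _).ecc_lower 0 hr⟩
  · rw [loc_id.rho_tl]
    exact strip_tl loc_id.cont loc_id.pos _
  · rw [rt_eq]
    exact rt_zero_le 0

theorem Q_all {e : ℝ} (he : Real.pi ≤ e) : Q e := by
  have key : ∀ n : ℕ, ∀ e, Real.pi ≤ e → e ≤ Real.pi + n → Q e := by
    intro n
    induction n with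
    | zero =>
      intro e h1 h2
      rw [show e = Real.pi by simp at h2; linarith]
      exact Q_pi
    | succ n ih =>
      intro e h1 h2
      by_cases h3 : e ≤ Real.pi + n
      · exact ih e h1 h3
      have hn : (0 : ℝ) ≤ n := Nat.cast_nonneg n
      have hp := Real.pi_gt_three
      have h4 := le_max_left Real.pi (e - 1)
      have h5 := le_max_right Real.pi (e - 1)
      push_cast at h2
      exact (ih (max Real.pi (e - 1)) h4 (max_le (by linarith) (by linarith))).step (by linarith)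
        (max_lt (by linarith) (by linarith)) (by linarith)
  obtain ⟨n, hn⟩ := exists_nat_ge (e - Real.pi)
  exact key n e he (by linarith)

theorem diam_large {D : ℝ} (hD : 2 * Real.pi ≤ D) : ∃ g, Loc g ∧ IsDiam (rho g) D := by
  obtain ⟨g, hg, hS, p, hp⟩ := Q_all (e := D / 2) (by linarith)
  refine ⟨_, hg.tl p, ?_⟩
  have := hp.diam hg.cont (fun x => (hg.pos x).le) hS (by linarith only [Real.pi_pos, hD])
  rw [hg.rho_tl]
  convert this using 1
  ring

theorem rt_le (t : ℝ) (z z' : ℂ) : cdist (rt t) z z' ≤ 4 * Real.pi := by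
  have h0 : ∀ x, 0 ≤ rho (fun z => z) x := fun x => (loc_id.pos x).le
  have h1 : ∀ w, cdist (rho fun z => z) 0 w ≤ Real.pi := fun w => by
    linarith [sphere_le w, Real.arctan_lt_pi_div_two ‖w‖]
  have h2 : ∀ w, cdist (rho fun z => z) t w ≤ 2 * Real.pi := fun w => by
    have := cdist_triangle loc_id.cont h0 t 0 w
    rw [cdist_comm loc_id.cont h0 t 0] at this
    linarith [h1 t, h1 w]
  have := tl_upper loc_id.cont h0 t z z'
  simp only [rt]
  linarith [h2 (t + exp z), h2 (t + exp z')]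

theorem rt_ratio (s t : ℝ) (z : ℂ) : rt t z ≤ (1 + |t - s| + |t - s| ^ 2) * rt s z := by
  simp only [rt, tl, rho_id]
  rw [← mul_assoc]
  refine mul_le_mul_of_nonneg_right ?_ (norm_nonneg _)
  have h1 : ‖(s : ℂ) + exp z‖ ≤ ‖(t : ℂ) + exp z‖ + |t - s| := by
    have : (s : ℂ) + exp z = ((t : ℂ) + exp z) - ((t - s : ℝ) : ℂ) := by push_cast; ring
    rw [this]
    exact (norm_sub_le _ _).trans (by rw [norm_real, Real.norm_eq_abs])
  have h2 := abs_nonneg (t - s)
  have h3 := norm_nonneg ((t : ℂ) + exp z)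
  have h4 := norm_nonneg ((s : ℂ) + exp z)
  generalize ‖(s : ℂ) + exp z‖ = a at *
  generalize ‖(t : ℂ) + exp z‖ = b at *
  generalize |t - s| = δ at *
  rw [← mul_div_assoc, div_le_div_iff₀ (by positivity) (by positivity)]
  have h5 : a ^ 2 ≤ (b + δ) ^ 2 := by gcongr
  linarith only [mul_nonneg h2 (sq_nonneg (b - 1)), mul_nonneg (sq_nonneg δ) (sq_nonneg b), h5]

/-- the diameter of the solution `t + exp z` -/
noncomputable def Dm (t : ℝ) : ℝ := sSup (range fun q : ℂ × ℂ => cdist (rt t) q.1 q.2)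

theorem isDiam_Dm (t : ℝ) : IsDiam (rt t) (Dm t) := by
  have hb : BddAbove (range fun q : ℂ × ℂ => cdist (rt t) q.1 q.2) :=
    ⟨_, by rintro _ ⟨q, rfl⟩; exact rt_le t _ _⟩
  refine ⟨fun x y => le_csSup hb ⟨(x, y), rfl⟩, fun r hr => ?_⟩
  obtain ⟨_, ⟨q, rfl⟩, hq⟩ := exists_lt_of_lt_csSup (range_nonempty _) hr
  exact ⟨_, _, hq⟩

theorem IsDiam.le {D E : ℝ} (h : IsDiam ρ D) (hE : ∀ x y, cdist ρ x y ≤ E) : D ≤ E := by
  by_contra hlt
  obtain ⟨x, y, hxy⟩ := h.2 E (not_le.mp hlt)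
  exact absurd hxy (not_lt.mpr (hE x y))

theorem continuous_Dm : Continuous Dm := by
  have h1 : ∀ s t, Dm t ≤ Dm s + (|t - s| + |t - s| ^ 2) * (4 * Real.pi) := fun s t =>
    (isDiam_Dm t).le fun x y => by
      have h2 := cdist_le_mul (rt_cont t) (rt_nonneg t) (rt_cont s) (rt_nonneg s) (by positivity)
        (rt_ratio s t) x y
      have h3 := (isDiam_Dm s).1 x y
      have h4 := mul_le_mul_of_nonneg_left (rt_le s x y)
        (show 0 ≤ |t - s| + |t - s| ^ 2 by positivity)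
      linarith
  refine continuous_iff_continuousAt.mpr fun s => ?_
  rw [ContinuousAt, tendsto_iff_norm_sub_tendsto_zero]
  refine squeeze_zero (g := fun t => (|t - s| + |t - s| ^ 2) * (4 * Real.pi))
    (fun _ => norm_nonneg _) (fun t => ?_) ?_
  · have h2 := h1 s t
    have h3 := h1 t s
    rw [abs_sub_comm] at h3
    rw [Real.norm_eq_abs, abs_le]
    constructor <;> linarith
  · have : Tendsto (fun t => (|t - s| + |t - s| ^ 2) * (4 * Real.pi)) (𝓝 s)
        (𝓝 ((|s - s| + |s - s| ^ 2) * (4 * Real.pi))) :=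
      (by fun_prop : Continuous fun t => (|t - s| + |t - s| ^ 2) * (4 * Real.pi)).tendsto s
    simpa using this

theorem Dm_lower {t : ℝ} (ht : 0 < t) : 4 * Real.arctan t ≤ Dm t := by
  have h0 : ∀ x, 0 ≤ rho (fun z => z) x := fun x => (loc_id.pos x).le
  refine le_of_forall_pos_le_add fun η hη => ?_
  obtain ⟨ε, hε, hεδ⟩ := Metric.continuousAt_iff.mp (Real.continuous_arctan.continuousAt (x := t))
    (η / 4) (by positivity)
  obtain ⟨m, hm, hmρ⟩ := strip_tl loc_id.cont loc_id.pos (t : ℂ) (Real.log (ε / 2))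
    (Real.log (2 * t))
  set D : ℂ → ℝ := fun z => max (2 * Real.arctan t - η / 2 - 2 * Real.arctan ‖t + exp z‖) 0 with hD
  set z0 : ℂ := log (-t) with hz0
  have e0 : exp z0 = -t := exp_log (by simpa using ht.ne')
  obtain ⟨y, hy, hK⟩ := exists_far (A := fun z => m * z.im) (δ := m * Real.pi) (by positivity)
    (fun z => by
      have h1 : m * Real.pi * (z.im / Real.pi) = m * z.im := by field_simp
      have h2 : 0 < m * Real.pi := by positivity
      constructor <;> linarith only [h1, h2]) z0 z0 (D z0 + D z0)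
  have hDy : D y = D z0 := by simp only [hD, hy]
  have key := clamp_le (rt_cont t) (rt_nonneg t) (D := D) (A := fun z => m * z.im)
    (fun x => le_max_right _ _) (fun x => ?_) (fun x => ?_) (z := z0) (z' := y) (by rwa [hDy])
  · have h1 : 2 * Real.arctan t - η / 2 ≤ D z0 := by
      refine le_trans (le_of_eq ?_) (le_max_left _ _)
      simp [e0]
    linarith only [(isDiam_Dm t).1 z0 y, hDy, key, h1]
  · refine LipAt.max (LipAt.const_sub ?_ _) (lipAt_const (rt_nonneg t x) 0 x)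
    exact LipAt.tl (h := fun w : ℂ => 2 * Real.arctan ‖w‖) h0 (by
      rw [rho_id]; exact lipAt_arctan _)
  by_cases h1 : x.re < Real.log (ε / 2)
  · refine Or.inl ?_
    filter_upwards [(isOpen_lt continuous_re continuous_const).mem_nhds h1] with v hv
    have h2 : ‖exp v‖ < ε / 2 := by
      rw [norm_exp, ← Real.exp_log (show 0 < ε / 2 by positivity)]
      exact Real.exp_lt_exp.mpr hv
    have h3 : dist ‖t + exp v‖ t < ε := by
      have := abs_norm_sub_norm_le (t + exp v) (t : ℂ)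
      rw [add_sub_cancel_left, norm_real, Real.norm_of_nonneg ht.le] at this
      rw [Real.dist_eq]
      linarith only [hε, h2, this]
    have h4 := hεδ h3
    rw [Real.dist_eq, abs_lt] at h4
    exact max_eq_right (by linarith only [h4])
  by_cases h2 : Real.log (2 * t) < x.re
  · refine Or.inl ?_
    filter_upwards [(isOpen_lt continuous_const continuous_re).mem_nhds h2] with v hv
    have h3 : 2 * t < ‖exp v‖ := by
      rw [norm_exp, ← Real.exp_log (show 0 < 2 * t by positivity)]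
      exact Real.exp_lt_exp.mpr hv
    have h4 : t ≤ ‖t + exp v‖ := by
      have := norm_sub_le (t + exp v) (t : ℂ)
      rw [add_sub_cancel_left, norm_real, Real.norm_of_nonneg ht.le] at this
      linarith only [h3, this]
    have h5 := Real.arctan_mono h4
    exact max_eq_right (by linarith only [hη, h5])
  refine Or.inr ?_
  have := (lipAt_im x).const_mul zero_le_one m
  rw [abs_of_pos hm, mul_one] at this
  exact this.mono (hmρ x (not_lt.mp h1) (not_lt.mp h2))

theorem diam_small {D : ℝ} (h1 : Real.pi ≤ D) (h2 : D < 2 * Real.pi) :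
    ∃ g, Loc g ∧ IsDiam (rho g) D := by
  have hp := Real.pi_pos
  have h3 : 0 < Real.tan (D / 4) := Real.tan_pos_of_pos_of_lt_pi_div_two (by linarith) (by linarith only [h2])
  have h4 := Dm_lower h3
  rw [Real.arctan_tan (by linarith) (by linarith)] at h4
  obtain ⟨t, ht⟩ := intermediate_value_univ 0 (Real.tan (D / 4)) continuous_Dm
    (show D ∈ Icc (Dm 0) (Dm (Real.tan (D / 4))) from
      ⟨((isDiam_Dm 0).le rt_zero_le).trans h1, by linarith⟩)
  exact ⟨_, loc_id.tl (t : ℂ), by rw [rt_eq, ← ht]; exact isDiam_Dm t⟩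

end Pool.Agent.MP_ae50c7_an

end FamilyPart

section InfinitePart
/-!
An explicit solution with infinite diameter.
-/


namespace Pool.Agent.MP_ae50c7_an

open Filter Topology Set Complex

theorem exists_G : ∃ (G : ℂ → ℂ) (l : ℝ), 0 < l ∧ G 0 = 0 ∧ G Real.pi = Real.pi * I ∧
    ∀ z, HasDerivAt G (I * l * exp (cos z)) z := by
  obtain ⟨F, h0, hF⟩ := (show Differentiable ℂ fun z => exp (cos z) by fun_prop
    ).isExactOn_univ.with_val_at 0 0
  have h1 := intervalIntegral.integral_eq_sub_of_hasDerivAt (a := 0) (b := Real.pi)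
    (f := fun t : ℝ => F t) (f' := fun t : ℝ => ((Real.exp (Real.cos t) : ℝ) : ℂ))
    (fun t _ => by simpa using (hF t (mem_univ _)).comp_ofReal)
    (Continuous.intervalIntegrable (by fun_prop) _ _)
  rw [intervalIntegral.integral_ofReal, ofReal_zero, h0, sub_zero] at h1
  have h2 : 0 < ∫ t in (0 : ℝ)..Real.pi, Real.exp (Real.cos t) :=
    intervalIntegral.intervalIntegral_pos_of_pos (Continuous.intervalIntegrable (by fun_prop) _ _)
      (fun _ => Real.exp_pos _) Real.pi_pos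
  set a := ∫ t in (0 : ℝ)..Real.pi, Real.exp (Real.cos t)
  refine ⟨fun z => I * (Real.pi / a : ℝ) * F z, Real.pi / a, div_pos Real.pi_pos h2, by simp [h0],
    ?_, fun z => (hF z (mem_univ _)).const_mul _⟩
  have : (a : ℂ) ≠ 0 := ofReal_ne_zero.mpr h2.ne'
  simp only [← h1]
  push_cast
  field_simp

theorem exp_neg_cosh_le (y : ℝ) : Real.exp (-Real.cosh y) ≤ 4 * (1 / (1 + y ^ 2)) := by
  have h1 : y ^ 2 / 4 ≤ Real.cosh y := by
    rw [← Real.cosh_abs, Real.cosh_eq, ← sq_abs]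
    have := Real.quadratic_le_exp_of_nonneg (abs_nonneg y)
    have := Real.exp_pos (-|y|)
    have := abs_nonneg y
    linarith
  have h2 := Real.add_one_le_exp (Real.cosh y)
  rw [Real.exp_neg, mul_one_div, inv_eq_one_div, div_le_div_iff₀ (Real.exp_pos _) (by positivity)]
  linarith only [h1, h2]

theorem G_lines {G : ℂ → ℂ} {l : ℝ} (hl : 0 < l) (h0 : G 0 = 0) (hπ : G Real.pi = Real.pi * I)
    (hG : ∀ z, HasDerivAt G (I * l * exp (cos z)) z) (j : ℤ) (z : ℂ) (hz : z.re = j * Real.pi) :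
    (Even j → Real.cos (G z).im = 1) ∧
      (Odd j → Real.cos (G z).im = -1 ∧ |(G z).re| ≤ 2 * Real.pi * l) := by
  have odd : ∀ z, G z + G (-z) = 0 := fun z => by
    have hd : ∀ z, HasDerivAt (fun z => G z + G (-z)) 0 z := fun z => by
      have := (hG z).add ((hG (-z)).comp z (hasDerivAt_neg z))
      refine this.congr_deriv ?_
      simp
    have := is_const_of_deriv_eq_zero (fun z => (hd z).differentiableAt) (fun z => (hd z).deriv) z 0
    simpa only [h0, neg_zero, add_zero] using this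
  have per : Function.Periodic (fun z => G z - I * z) (2 * Real.pi) := fun z => by
    have hd : ∀ z, HasDerivAt (fun z => G (z + 2 * Real.pi) - G z) 0 z := fun z => by
      have := ((hG (z + 2 * Real.pi)).comp z ((hasDerivAt_id z).add_const _)).sub (hG z)
      refine this.congr_deriv ?_
      simp [cos_add_two_pi]
    have h1 := is_const_of_deriv_eq_zero (fun z => (hd z).differentiableAt)
      (fun z => (hd z).deriv) z (-Real.pi)
    have h2 := odd Real.pi
    rw [show -(Real.pi : ℂ) + 2 * Real.pi = Real.pi by ring] at h1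
    simp only
    linear_combination h1 - h2 + 2 * hπ
  have shift : ∀ (n : ℤ) (z : ℂ), G (z + n * (2 * Real.pi)) = G z + n * (2 * Real.pi) * I :=
    fun n z => by
      have := per.int_mul n z
      linear_combination this
  have vert : ∀ (a : ℂ) (y : ℝ), HasDerivAt (fun y : ℝ => G (a + y * I))
      (-(l * exp (cos (a + y * I)))) y := fun a y => by
    have h1 : HasDerivAt (fun w : ℂ => a + w * I) I (y : ℂ) := by
      simpa using ((hasDerivAt_id (y : ℂ)).mul_const I).const_add a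
    refine (((hG _).comp (y : ℂ) h1).comp_ofReal).congr_deriv ?_
    linear_combination (l * exp (cos (a + y * I))) * I_mul_I
  constructor
  · rintro ⟨n, rfl⟩
    have hd : ∀ y : ℝ, HasDerivAt (fun y : ℝ => (G (0 + y * I)).im) 0 y := fun y => by
      refine (imCLM.hasFDerivAt.comp_hasDerivAt y (vert 0 y)).congr_deriv ?_
      simp only [zero_add, cos_mul_I, ← ofReal_cosh, ← ofReal_exp, imCLM_apply, neg_im, mul_im, ofReal_re, ofReal_im, mul_zero, zero_mul, add_zero, neg_zero]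
    have h1 := is_const_of_deriv_eq_zero (fun z => (hd z).differentiableAt)
      (fun z => (hd z).deriv) z.im 0
    have e : z = (0 + z.im * I) + n * (2 * Real.pi) := by
      apply Complex.ext
      · simp [hz]; ring
      · simp
    rw [e, shift, add_im, h1]
    simp [h0]
  · rintro ⟨n, rfl⟩
    have hv : ∀ y : ℝ, HasDerivAt (fun y : ℝ => G (Real.pi + y * I))
        ((-(l * Real.exp (-Real.cosh y)) : ℝ) : ℂ) y := fun y => by
      refine (vert Real.pi y).congr_deriv ?_
      rw [add_comm, cos_add_pi, cos_mul_I]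
      push_cast
      rfl
    have hd : ∀ y : ℝ, HasDerivAt (fun y : ℝ => (G (Real.pi + y * I)).im) 0 y := fun y =>
      (imCLM.hasFDerivAt.comp_hasDerivAt y (hv y)).congr_deriv (by rw [imCLM_apply, ofReal_im])
    have hr : ∀ y : ℝ, HasDerivAt (fun y : ℝ => (G (Real.pi + y * I)).re)
        (-(l * Real.exp (-Real.cosh y))) y := fun y =>
      (reCLM.hasFDerivAt.comp_hasDerivAt y (hv y)).congr_deriv (by rw [reCLM_apply, ofReal_re])
    have h1 := is_const_of_deriv_eq_zero (fun z => (hd z).differentiableAt)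
      (fun z => (hd z).deriv) z.im 0
    have e : z = (Real.pi + z.im * I) + n * (2 * Real.pi) := by
      apply Complex.ext
      · simp [hz]; ring
      · simp
    have a1 : Antitone fun y : ℝ => (G (Real.pi + y * I)).re :=
      antitone_of_deriv_nonpos (fun y => (hr y).differentiableAt) fun y => by
        rw [(hr y).deriv]
        have := Real.exp_pos (-Real.cosh y)
        nlinarith only [hl, this]
    have hm : ∀ y : ℝ, HasDerivAt (fun y : ℝ => (G (Real.pi + y * I)).re + 4 * l * Real.arctan y)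
        (-(l * Real.exp (-Real.cosh y)) + 4 * l * (1 / (1 + y ^ 2))) y := fun y =>
      (hr y).add ((Real.hasDerivAt_arctan y).const_mul _)
    have a2 : Monotone fun y : ℝ => (G (Real.pi + y * I)).re + 4 * l * Real.arctan y :=
      monotone_of_deriv_nonneg (fun y => (hm y).differentiableAt) fun y => by
        rw [(hm y).deriv]
        nlinarith only [exp_neg_cosh_le y, hl]
    have r0 : (G (Real.pi + (0 : ℝ) * I)).re = 0 := by simp [hπ]
    have b1 := Real.arctan_lt_pi_div_two z.im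
    have b2 := Real.neg_pi_div_two_lt_arctan z.im
    have hb : |(G (Real.pi + z.im * I)).re| ≤ 2 * Real.pi * l := by
      have hp := Real.pi_pos
      rw [abs_le]
      rcases le_total 0 z.im with h | h
      · have c1 := a1 h
        have c2 := a2 h
        simp only [r0, Real.arctan_zero] at c1 c2
        constructor <;> nlinarith only [hl, b1, c2, c1]
      · have c1 := a1 h
        have c2 := a2 h
        simp only [r0, Real.arctan_zero] at c1 c2
        constructor <;> nlinarith only [hl, b1, b2, c1, c2]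
    constructor
    · rw [e, shift, add_im, h1]
      simp [hπ, Real.cos_add_int_mul_two_pi]
    · rw [e, shift, add_re]
      simpa only [mul_re, intCast_re, re_ofNat, ofReal_re, im_ofNat, ofReal_im, mul_zero, sub_zero, intCast_im, mul_im, zero_mul, add_zero, I_re, I_im, mul_one, sub_self] using hb

theorem diam_infinite : ∃ g, Loc g ∧ cdiam (rho g) = ⊤ := by
  classical
  obtain ⟨G, l, hl, h0, hπ, hG⟩ := exists_G
  have hg : ∀ z, HasDerivAt (fun z => exp (G z)) (exp (G z) * (I * l * exp (cos z))) z :=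
    fun z => (hG z).cexp
  have hL : Loc fun z => exp (G z) := ⟨fun z => (hg z).differentiableAt, fun z => by
    rw [(hg z).deriv]
    simp [hl.ne']⟩
  have hρ : ∀ z, rho (fun z => exp (G z)) z = rt 0 (G z) * ‖I * l * exp (cos z)‖ := fun z => by
    simp only [rt, tl, rho_id, ofReal_zero, zero_add]
    rw [rho, (hg z).deriv, norm_mul]
    ring
  set K := 2 * Real.pi * l + 1 with hK
  obtain ⟨m, hm, hmρ⟩ := strip_tl loc_id.cont loc_id.pos ((0 : ℝ) : ℂ) (-K) K
  set κ : ℂ → ℝ := fun w => m * max 0 (min (1 / 2 * (1 - Real.cos w.im)) (K - ‖w.re‖)) with hκ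
  have hκl : ∀ w, LipAt κ (rt 0 w) w := fun w => by
    by_cases h1 : K < ‖w.re‖
    · refine LipAt.of_eventually_eq (rt_nonneg 0 w) ?_
      have e : ∀ y : ℂ, K < ‖y.re‖ → κ y = 0 := fun y hy => by
        simp only [hκ]
        rw [max_eq_left ((min_le_right _ _).trans (by linarith only [hy])), mul_zero]
      filter_upwards [(isOpen_lt continuous_const (by fun_prop : Continuous fun y : ℂ => ‖y.re‖)
        ).mem_nhds h1] with y hy
      rw [e y hy, e w h1]
    have c1 : LipAt (fun w : ℂ => Real.cos w.im) 1 w := by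
      have := (lipAt_of_hasDerivAt (Real.hasDerivAt_cos w.im)).comp (g := Complex.im) (lipAt_im w)
        (norm_nonneg _) zero_le_one
      exact this.mono (by simpa using Real.abs_sin_le_one _)
    have c2 : LipAt (fun w : ℂ => 1 / 2 * (1 - Real.cos w.im)) 1 w :=
      ((c1.const_sub 1).const_mul zero_le_one (1 / 2)).mono (by norm_num [abs_le])
    have := ((lipAt_const zero_le_one 0 w).max (c2.min ((lipAt_re w).norm.const_sub K))).const_mul
      zero_le_one m
    rw [abs_of_pos hm, mul_one] at this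
    have h2 := abs_le.mp (not_lt.mp h1)
    exact this.mono (hmρ w h2.1 h2.2)
  set q : ℤ → ℂ → ℝ := fun j z => if Even j then κ (G z) else m - κ (G z) with hq
  have hq0 : ∀ (z : ℂ) (j : ℤ), z.re / Real.pi = j → q j z = 0 ∧ q (j - 1) z = m := fun z j hj => by
    have hj' : z.re = j * Real.pi := by
      rw [← hj]
      field_simp
    obtain ⟨l1, l2⟩ := G_lines hl h0 hπ hG j z hj'
    rcases Int.even_or_odd j with he | ho
    · have e : κ (G z) = 0 := by
        simp only [hκ, l1 he, sub_self, mul_zero]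
        rw [max_eq_left (min_le_left _ _), mul_zero]
      have h1 : ¬Even (j - 1) := Int.not_even_iff_odd.mpr (he.sub_odd odd_one)
      simp only [hq, he, ↓ reduceIte, e, h1, sub_zero, and_self]
    · have e : κ (G z) = m := by
        simp only [hκ, (l2 ho).1]
        rw [min_eq_left (by rw [Real.norm_eq_abs]; linarith only [(l2 ho).2])]
        norm_num
      have h1 : Even (j - 1) := ho.sub_odd odd_one
      have h2 : ¬Even j := Int.not_even_iff_odd.mpr ho
      simp only [hq, h2, ↓ reduceIte, e, sub_self, h1, and_self]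
  have hlip : ∀ z, LipAt (fun y : ℂ => m * (⌊y.re / Real.pi⌋ : ℝ) + q ⌊y.re / Real.pi⌋ y)
      (rho (fun z => exp (G z)) z) z := fun z => by
    refine lipAt_glue (s := fun y : ℂ => y.re / Real.pi) (by fun_prop) (fun j => ?_) (hq0 z)
    have := (hκl (G z)).comp (lipAt_of_hasDerivAt (hG z)) (rt_nonneg 0 _) (norm_nonneg _)
    rw [← hρ] at this
    by_cases hj : Even j
    · simpa only [hq, if_pos hj] using this
    · simpa only [hq, if_neg hj] using this.const_sub m
  have hfar : ∀ N : ℕ, m * N ≤ cdist (rho fun z => exp (G z)) 0 ((N * Real.pi : ℝ) : ℂ) :=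
    fun N => by
      have := lip_le hL.cont (fun z => (hL.pos z).le) hlip 0 ((N * Real.pi : ℝ) : ℂ)
      have e1 : ((N * Real.pi : ℝ) : ℂ).re / Real.pi = ((N : ℤ) : ℝ) := by
        rw [ofReal_re]
        push_cast
        field_simp
      have e0 : (0 : ℂ).re / Real.pi = ((0 : ℤ) : ℝ) := by simp
      rw [e1, e0, Int.floor_intCast, Int.floor_intCast, (hq0 _ _ e1).1, (hq0 _ _ e0).1] at this
      simpa only [ofReal_mul, ofReal_natCast, ge_iff_le, Int.cast_natCast, add_zero, Int.cast_zero, mul_zero, sub_zero] using this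
  refine ⟨_, hL, ?_⟩
  by_contra hne
  have h1 := le_cdiam (ρ := rho fun z => exp (G z))
    (D := (cdiam (rho fun z => exp (G z))).toReal + 1) fun r _ => by
      obtain ⟨N, hN⟩ := exists_nat_gt (r / m)
      exact ⟨_, _, lt_of_lt_of_le (by rwa [div_lt_iff₀' hm] at hN) (hfar N)⟩
  rw [ENNReal.ofReal_le_iff_le_toReal hne] at h1
  linarith only [h1]

end Pool.Agent.MP_ae50c7_an

end InfinitePart
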